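import Pool.Agent.K4HD.Rank

/-!
# The rank of the set of edges meeting `W`
-/

namespace K4HD

open Finset
open scoped Classical

variable {V : Type*}

/-- (representatives of) the edges meeting `W` -/
noncomputable def EW [Fintype V] (m : Fin 3 → V → V) (φ : V → ℕ) (W : Finset V) :
    Finset (V × Fin 3) :=
  univ.filter (fun p => φ p.1 < φ (m p.2 p.1) ∧ (p.1 ∈ W ∨ m p.2 p.1 ∈ W))

private lemma lt_or_lt' (m : Fin 3 → V → V) (hm : Mates m)
    (φ : V → ℕ) (hφ : Function.Injective φ) (i : Fin 3) (v : V) :
    φ v < φ (m i v) ∨ φ (m i v) < φ v := by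
  rcases lt_trichotomy (φ v) (φ (m i v)) with h | h | h
  · exact Or.inl h
  · exact absurd (hφ h).symm (hm.2 i v)
  · exact Or.inr h

private lemma mem_FS_EW [Fintype V] (m : Fin 3 → V → V) (hm : Mates m)
    (φ : V → ℕ) (hφ : Function.Injective φ) (W : Finset V) (f : Fin 3 → V → ZMod 2)
    (hf : f ∈ FS m φ (EW m φ W)) (i : Fin 3) (v : V) (hv : v ∉ W) (hv' : m i v ∉ W) :
    f i (m i v) = f i v := by
  rcases lt_or_lt' m hm φ hφ i v with h | h
  · refine hf.2 i v h ?_
    simp [EW, hv, hv']
  · have h2 := hf.2 i (m i v) (by rw [hm.1]; exact h) (by simp [EW, hv, hv', hm.1 i v])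
    rw [hm.1] at h2
    exact h2.symm

/-- functions constant on the edges with both ends outside `W` -/
private def AW (m : Fin 3 → V → V) (W : Finset V) : Submodule (ZMod 2) (V → ZMod 2) where
  carrier := {g | ∀ i v, v ∉ W → m i v ∉ W → g (m i v) = g v}
  add_mem' := by
    rintro f g h1 h2 i v hv hv'
    simp [h1 i v hv hv', h2 i v hv hv']
  zero_mem' := fun _ _ _ _ => rfl
  smul_mem' := by
    rintro c f h1 i v hv hv'
    simp [h1 i v hv hv']

/-- the functions of `AW` which vanish on `W` -/
private def AZ (m : Fin 3 → V → V) (W : Finset V) : Submodule (ZMod 2) (V → ZMod 2) where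
  carrier := {g | (∀ i v, v ∉ W → m i v ∉ W → g (m i v) = g v) ∧ ∀ v ∈ W, g v = 0}
  add_mem' := by
    rintro f g ⟨h1, h1'⟩ ⟨h2, h2'⟩
    refine ⟨fun i v hv hv' => ?_, fun v hv => ?_⟩
    · simp [h1 i v hv hv', h2 i v hv hv']
    · simp [h1' v hv, h2' v hv]
  zero_mem' := ⟨fun _ _ _ _ => rfl, fun _ _ => rfl⟩
  smul_mem' := by
    rintro c f ⟨h1, h1'⟩
    refine ⟨fun i v hv hv' => ?_, fun v hv => ?_⟩
    · simp [h1 i v hv hv']
    · simp [h1' v hv]

/-- the map `Φ` -/
private noncomputable def Ph [Fintype V] (m : Fin 3 → V → V) (φ : V → ℕ) (W : Finset V) :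
    FS m φ (EW m φ W) →ₗ[ZMod 2] ({p // p ∈ EW m φ W} → ZMod 2) where
  toFun f p := ∑ i ∈ univ.erase p.1.2, f.1 i p.1.1
  map_add' f g := by
    funext p
    simp [Finset.sum_add_distrib]
  map_smul' c f := by
    funext p
    simp only [Submodule.coe_smul, Pi.smul_apply, smul_eq_mul, RingHom.id_apply, Finset.mul_sum]

/-- the map `δ` -/
private noncomputable def De [Fintype V] (m : Fin 3 → V → V) (φ : V → ℕ) (W : Finset V) :
    AW m W →ₗ[ZMod 2] ({p // p ∈ EW m φ W} → ZMod 2) where
  toFun g p := g.1 p.1.1 + g.1 (m p.1.2 p.1.1)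
  map_add' f g := by
    funext p
    simp
    ring
  map_smul' c f := by
    funext p
    simp
    ring

private lemma zmod2_add_self (a : ZMod 2) : a + a = 0 := CharTwo.add_self_eq_zero a

private lemma sum_Reps [Fintype V] (m : Fin 3 → V → V) (hm : Mates m)
    (φ : V → ℕ) (hφ : Function.Injective φ) (h : V × Fin 3 → ZMod 2) :
    ∑ p ∈ Reps m φ, (h p + h (m p.2 p.1, p.2)) = ∑ p, h p := by
  have h1 : ∑ p, h p = ∑ p ∈ Reps m φ, h p + ∑ p ∈ (Reps m φ)ᶜ, h p :=
    (Finset.sum_add_sum_compl _ _).symm
  rw [h1, Finset.sum_add_distrib]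
  congr 1
  refine Finset.sum_bij' (fun p _ => (m p.2 p.1, p.2)) (fun p _ => (m p.2 p.1, p.2)) ?_ ?_ ?_ ?_ ?_
  · intro p hp
    simp only [Reps, mem_filter, mem_univ, true_and, mem_compl] at hp ⊢
    rw [hm.1]
    exact not_lt.2 hp.le
  · intro p hp
    simp only [Reps, mem_filter, mem_univ, true_and, mem_compl] at hp ⊢
    rw [hm.1]
    rcases lt_or_lt' m hm φ hφ p.2 p.1 with h | h
    · exact absurd h hp
    · exact h
  · intro p _
    simp [hm.1]
  · intro p _
    simp [hm.1]
  · intro p _
    rfl

private lemma orth [Fintype V] (m : Fin 3 → V → V) (hm : Mates m)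
    (φ : V → ℕ) (hφ : Function.Injective φ) (W : Finset V)
    (f : FS m φ (EW m φ W)) (g : AW m W) :
    ∑ p, Ph m φ W f p * De m φ W g p = 0 := by
  have e1 : ∑ p, Ph m φ W f p * De m φ W g p =
      ∑ p ∈ EW m φ W, (∑ i ∈ univ.erase p.2, f.1 i p.1) * (g.1 p.1 + g.1 (m p.2 p.1)) :=
    Finset.sum_coe_sort (EW m φ W)
      (fun p => (∑ i ∈ univ.erase p.2, f.1 i p.1) * (g.1 p.1 + g.1 (m p.2 p.1)))
  rw [e1]
  have e2 : ∑ p ∈ EW m φ W, (∑ i ∈ univ.erase p.2, f.1 i p.1) * (g.1 p.1 + g.1 (m p.2 p.1)) =
      ∑ p ∈ Reps m φ, (∑ i ∈ univ.erase p.2, f.1 i p.1) * (g.1 p.1 + g.1 (m p.2 p.1)) := by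
    refine Finset.sum_subset ?_ ?_
    · intro p hp
      simp only [EW, Reps, mem_filter, mem_univ, true_and] at hp ⊢
      exact hp.1
    · intro p hp hp'
      simp only [EW, Reps, mem_filter, mem_univ, true_and, not_and, not_or] at hp hp'
      obtain ⟨h1, h2⟩ := hp' hp
      rw [g.2 p.2 p.1 h1 h2, zmod2_add_self, mul_zero]
  rw [e2]
  have e3 : ∀ p ∈ Reps m φ, (∑ i ∈ univ.erase p.2, f.1 i p.1) * (g.1 p.1 + g.1 (m p.2 p.1)) =
      (fun p : V × Fin 3 => (∑ i ∈ univ.erase p.2, f.1 i p.1) * g.1 p.1) p +
      (fun p : V × Fin 3 => (∑ i ∈ univ.erase p.2, f.1 i p.1) * g.1 p.1) (m p.2 p.1, p.2) := by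
    intro p _
    simp only
    have : ∑ i ∈ univ.erase p.2, f.1 i (m p.2 p.1) = ∑ i ∈ univ.erase p.2, f.1 i p.1 := by
      refine Finset.sum_congr rfl fun i hi => ?_
      exact f.2.1 i p.2 (Finset.ne_of_mem_erase hi).symm p.1
    rw [this]
    ring
  rw [Finset.sum_congr rfl e3, sum_Reps m hm φ hφ, Fintype.sum_prod_type]
  refine Finset.sum_eq_zero fun v _ => ?_
  simp only
  rw [← Finset.sum_mul]
  have : ∑ j : Fin 3, ∑ i ∈ univ.erase j, f.1 i v = 0 := by
    have h3 : ∀ a b c : ZMod 2, (b + c) + (a + c) + (a + b) = 0 := by decide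
    have h0 : (univ.erase (0 : Fin 3)) = {1, 2} := by decide
    have h1 : (univ.erase (1 : Fin 3)) = {0, 2} := by decide
    have h2 : (univ.erase (2 : Fin 3)) = {0, 1} := by decide
    rw [Fin.sum_univ_three, h0, h1, h2]
    simp [h3]
  rw [this, zero_mul]

private lemma rank_add [Fintype V] (m : Fin 3 → V → V) (hm : Mates m)
    (φ : V → ℕ) (hφ : Function.Injective φ) (W : Finset V) :
    Module.finrank (ZMod 2) (LinearMap.range (Ph m φ W)) +
      Module.finrank (ZMod 2) (LinearMap.range (De m φ W)) ≤ #(EW m φ W) := by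
  let D := dotProductEquiv (ZMod 2) {p // p ∈ EW m φ W}
  have hle : (LinearMap.range (De m φ W)).map D.toLinearMap ≤
      (LinearMap.range (Ph m φ W)).dualAnnihilator := by
    rintro _ ⟨_, ⟨g, rfl⟩, rfl⟩
    rw [Submodule.mem_dualAnnihilator]
    rintro _ ⟨f, rfl⟩
    have h1 : (D.toLinearMap (De m φ W g)) (Ph m φ W f) =
        ∑ p, Ph m φ W f p * De m φ W g p := by
      simp only [D, LinearEquiv.coe_coe, dotProductEquiv_apply_apply, dotProduct]
      exact Finset.sum_congr rfl fun p _ => mul_comm _ _
    rw [h1]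
    exact orth m hm φ hφ W f g
  have h2 : Module.finrank (ZMod 2) (LinearMap.range (De m φ W)) ≤
      Module.finrank (ZMod 2) (LinearMap.range (Ph m φ W)).dualAnnihilator := by
    rw [← LinearEquiv.finrank_map_eq D (LinearMap.range (De m φ W))]
    exact Submodule.finrank_mono hle
  have h3 := Subspace.finrank_add_finrank_dualAnnihilator_eq (LinearMap.range (Ph m φ W))
  have h4 : Module.finrank (ZMod 2) ({p // p ∈ EW m φ W} → ZMod 2) = #(EW m φ W) := by
    rw [Module.finrank_fintype_fun_eq_card, Fintype.card_coe]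
  omega

private lemma finrank_AW [Fintype V] (m : Fin 3 → V → V) (W : Finset V) :
    #W + Module.finrank (ZMod 2) (AZ m W) ≤ Module.finrank (ZMod 2) (AW m W) := by
  let L : (({v // v ∈ W} → ZMod 2) × AZ m W) →ₗ[ZMod 2] AW m W :=
    { toFun := fun x => ⟨fun v => (if h : v ∈ W then x.1 ⟨v, h⟩ else 0) + x.2.1 v, by
        intro i v hv hv'
        simp [hv, hv', x.2.2.1 i v hv hv']⟩
      map_add' := by
        intro x y
        ext v
        by_cases h : v ∈ W
        · simp [h]; ring
        · simp [h]
      map_smul' := by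
        intro c x
        ext v
        by_cases h : v ∈ W
        · simp [h]; ring
        · simp [h] }
  have hL : Function.Injective L := by
    rw [← LinearMap.ker_eq_bot, LinearMap.ker_eq_bot']
    rintro ⟨a, b⟩ hab
    have h1 : ∀ v, (if h : v ∈ W then a ⟨v, h⟩ else 0) + b.1 v = 0 := by
      intro v
      exact congrFun (congrArg Subtype.val hab) v
    have h2 : b = 0 := by
      ext v
      by_cases h : v ∈ W
      · exact b.2.2 v h
      · have := h1 v
        simpa [h] using this
    subst h2
    have h3 : a = 0 := by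
      funext v
      have := h1 v.1
      simpa [v.2] using this
    subst h3
    rfl
  have h5 := LinearMap.finrank_le_finrank_of_injective hL
  rw [Module.finrank_prod, Module.finrank_fintype_fun_eq_card, Fintype.card_coe] at h5
  exact h5

private lemma finrank_kerDe [Fintype V] (m : Fin 3 → V → V) (hm : Mates m) (hG : GConn m)
    (φ : V → ℕ) (hφ : Function.Injective φ) (W : Finset V) (hW : W.Nonempty) :
    Module.finrank (ZMod 2) (LinearMap.ker (De m φ W)) ≤ 1 := by
  obtain ⟨w, hw⟩ := hW
  let L : LinearMap.ker (De m φ W) →ₗ[ZMod 2] ZMod 2 :=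
    { toFun := fun x => x.1.1 w
      map_add' := fun x y => rfl
      map_smul' := fun c x => rfl }
  have hL : Function.Injective L := by
    rw [← LinearMap.ker_eq_bot, LinearMap.ker_eq_bot']
    rintro ⟨⟨g, hg⟩, hgk⟩ hab
    have h0 : g w = 0 := hab
    have h1 : ∀ i v, g (m i v) = g v := by
      intro i v
      by_cases h : v ∉ W ∧ m i v ∉ W
      · exact hg i v h.1 h.2
      · have key : ∀ v, φ v < φ (m i v) → (v ∈ W ∨ m i v ∈ W) → g v + g (m i v) = 0 := by
          intro v h1 h2
          have hp : (v, i) ∈ EW m φ W := by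
            simp only [EW, mem_filter, mem_univ, true_and]
            exact ⟨h1, h2⟩
          exact congrFun (LinearMap.mem_ker.1 hgk) ⟨(v, i), hp⟩
        have h' : v ∈ W ∨ m i v ∈ W := by
          by_contra hc
          rw [not_or] at hc
          exact h hc
        have e : g v + g (m i v) = 0 := by
          rcases lt_or_lt' m hm φ hφ i v with h3 | h3
          · exact key v h3 h'
          · have := key (m i v) (by rw [hm.1]; exact h3) (by rw [hm.1]; exact h'.symm)
            rw [hm.1, add_comm] at this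
            exact this
        exact ((CharTwo.add_eq_zero).1 e).symm
    have h2 : ∀ v, g v = 0 := fun v => (hG g h1 v w).trans h0
    ext v
    exact h2 v
  have h5 := LinearMap.finrank_le_finrank_of_injective hL
  rwa [Module.finrank_self] at h5

private lemma finrank_kerPh [Fintype V] (m : Fin 3 → V → V) (hm : Mates m) (hG : GConn m)
    (φ : V → ℕ) (hφ : Function.Injective φ) (W : Finset V) (hW : W.Nonempty) :
    Module.finrank (ZMod 2) (LinearMap.ker (Ph m φ W)) ≤ 1 + Module.finrank (ZMod 2) (AZ m W) := by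
  obtain ⟨w, hw⟩ := hW
  let L : LinearMap.ker (Ph m φ W) →ₗ[ZMod 2] (ZMod 2 × AZ m W) :=
    { toFun := fun x => (x.1.1 0 w, ⟨fun v => if v ∈ W then 0 else x.1.1 0 v + x.1.1 1 v + x.1.1 2 v,
        by
          refine ⟨fun i v hv hv' => ?_, fun v hv => by simp [hv]⟩
          have h : ∀ j, x.1.1 j (m i v) = x.1.1 j v := by
            intro j
            by_cases hj : i = j
            · subst hj
              exact mem_FS_EW m hm φ hφ W x.1.1 x.1.2 i v hv hv'
            · exact x.1.2.1 j i hj v
          simp [hv, hv', h]⟩)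
      map_add' := by
        intro x y
        ext v
        · rfl
        · by_cases h : v ∈ W
          · simp [h]
          · simp [h]; ring
      map_smul' := by
        intro c x
        ext v
        · rfl
        · by_cases h : v ∈ W
          · simp [h]
          · simp [h]; ring }
  have hL : Function.Injective L := by
    rw [← LinearMap.ker_eq_bot, LinearMap.ker_eq_bot']
    rintro ⟨⟨f, hf⟩, hfk⟩ hab
    have h0 : f 0 w = 0 := congrArg Prod.fst hab
    have hU : ∀ v, v ∉ W → f 0 v + f 1 v + f 2 v = 0 := by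
      intro v hv
      have := congrFun (congrArg Subtype.val (congrArg Prod.snd hab)) v
      simpa [L, hv] using this
    -- the edges meeting `W`
    have key : ∀ i v, (v ∈ W ∨ m i v ∈ W) → ∑ j ∈ univ.erase i, f j v = 0 := by
      intro i v h
      have key' : ∀ v, φ v < φ (m i v) → (v ∈ W ∨ m i v ∈ W) → ∑ j ∈ univ.erase i, f j v = 0 := by
        intro v h1 h2
        have hp : (v, i) ∈ EW m φ W := by
          simp only [EW, mem_filter, mem_univ, true_and]
          exact ⟨h1, h2⟩
        exact congrFun (LinearMap.mem_ker.1 hfk) ⟨(v, i), hp⟩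
      rcases lt_or_lt' m hm φ hφ i v with h3 | h3
      · exact key' v h3 h
      · have h4 := key' (m i v) (by rw [hm.1]; exact h3) (by rw [hm.1]; exact h.symm)
        rw [← h4]
        refine Finset.sum_congr rfl fun j hj => ?_
        exact (hf.1 j i (Finset.ne_of_mem_erase hj).symm v).symm
    have e0 : (univ.erase (0 : Fin 3)) = {1, 2} := by decide
    have e1 : (univ.erase (1 : Fin 3)) = {0, 2} := by decide
    have e2 : (univ.erase (2 : Fin 3)) = {0, 1} := by decide
    have hWeq : ∀ v ∈ W, f 1 v = f 0 v ∧ f 2 v = f 0 v := by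
      intro v hv
      have k1 := key 1 v (Or.inl hv)
      have k2 := key 2 v (Or.inl hv)
      rw [e1, Finset.sum_pair (by decide)] at k1
      rw [e2, Finset.sum_pair (by decide)] at k2
      exact ⟨((CharTwo.add_eq_zero).1 k2).symm, ((CharTwo.add_eq_zero).1 k1).symm⟩
    have hWeq' : ∀ v ∈ W, ∀ i j, f i v = f j v := by
      intro v hv i j
      obtain ⟨a, b⟩ := hWeq v hv
      fin_cases i <;> fin_cases j <;> simp [a, b]
    have hstep : ∀ i v, (∀ j, f j v = 0) → ∀ j, f j (m i v) = 0 := by
      intro i v hz j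
      by_cases hj : i = j
      · subst hj
        have hother : ∀ l, i ≠ l → f l (m i v) = 0 := fun l hl => by
          rw [hf.1 l i hl v, hz l]
        by_cases hmW : m i v ∈ W
        · rw [hWeq' (m i v) hmW i (i + 1)]
          exact hother (i + 1) (by fin_cases i <;> decide)
        · have hs := hU (m i v) hmW
          have hs' : ∀ a b c : ZMod 2, a + b + c = 0 → (b = 0 → c = 0 → a = 0) ∧
              (a = 0 → c = 0 → b = 0) ∧ (a = 0 → b = 0 → c = 0) := by decide
          have hs'' := hs' _ _ _ hs
          fin_cases i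
          · exact hs''.1 (hother 1 (by decide)) (hother 2 (by decide))
          · exact hs''.2.1 (hother 0 (by decide)) (hother 2 (by decide))
          · exact hs''.2.2 (hother 0 (by decide)) (hother 1 (by decide))
      · rw [hf.1 j i hj v, hz j]
    have hzw : ∀ j, f j w = 0 := fun j => by rw [hWeq' w hw j 0, h0]
    have hall : ∀ v, ∀ j, f j v = 0 := by
      let I : V → ZMod 2 := fun v => if ∀ j, f j v = 0 then 0 else 1
      have hI : ∀ i v, I (m i v) = I v := by
        intro i v
        have : (∀ j, f j (m i v) = 0) ↔ (∀ j, f j v = 0) := by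
          constructor
          · intro h
            have := hstep i (m i v) h
            rwa [hm.1] at this
          · exact hstep i v
        simp only [I, this]
      intro v
      have h6 := hG I hI v w
      have h7 : I w = 0 := by simp only [I]; rw [if_pos hzw]
      rw [h7] at h6
      by_contra hc
      have : I v = 1 := by simp only [I]; rw [if_neg hc]
      rw [this] at h6
      exact one_ne_zero h6
    have : f = 0 := by
      funext j v
      exact hall v j
    subst this
    rfl
  have h5 := LinearMap.finrank_le_finrank_of_injective hL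
  rwa [Module.finrank_prod, Module.finrank_self] at h5

theorem finrank_FS_EW [Fintype V] (m : Fin 3 → V → V) (hm : Mates m) (hG : GConn m)
    (φ : V → ℕ) (hφ : Function.Injective φ) (W : Finset V) (hW : W.Nonempty) :
    Module.finrank (ZMod 2) (FS m φ (EW m φ W)) + #W ≤ #(EW m φ W) + 2 := by
  have h1 := rank_add m hm φ hφ W
  have h2 := finrank_AW m W
  have h3 := finrank_kerDe m hm hG φ hφ W hW
  have h4 := finrank_kerPh m hm hG φ hφ W hW
  have h5 := LinearMap.finrank_range_add_finrank_ker (Ph m φ W)
  have h6 := LinearMap.finrank_range_add_finrank_ker (De m φ W)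
  omega

theorem rk_EW [Fintype V] (m : Fin 3 → V → V) (hm : Mates m) (hG : GConn m)
    (φ : V → ℕ) (hφ : Function.Injective φ) (W : Finset V) :
    (#W : ℤ) ≤ rk m φ (EW m φ W) := by
  have hEW : EW m φ W ∩ Reps m φ = EW m φ W := by
    refine Finset.inter_eq_left.2 ?_
    intro p hp
    simp only [EW, Reps, mem_filter, mem_univ, true_and] at hp ⊢
    exact hp.1
  rcases W.eq_empty_or_nonempty with rfl | hW
  · have hle : Module.finrank (ZMod 2) (FS m φ (EW m φ (∅ : Finset V))) ≤ 3 := by
      rcases isEmpty_or_nonempty V with hV | ⟨⟨v0⟩⟩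
      · have : Module.finrank (ZMod 2) (FS m φ (EW m φ (∅ : Finset V))) = 0 :=
          Module.finrank_zero_of_subsingleton
        omega
      · let L : FS m φ (EW m φ (∅ : Finset V)) →ₗ[ZMod 2] (Fin 3 → ZMod 2) :=
          { toFun := fun x i => x.1 i v0
            map_add' := fun x y => rfl
            map_smul' := fun c x => rfl }
        have hL : Function.Injective L := by
          rw [← LinearMap.ker_eq_bot, LinearMap.ker_eq_bot']
          rintro ⟨f, hf⟩ hab
          have h0 : ∀ i, f i v0 = 0 := fun i => congrFun hab i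
          ext i v
          have hc : ∀ j u, f i (m j u) = f i u := by
            intro j u
            by_cases hj : j = i
            · subst hj
              exact mem_FS_EW m hm φ hφ ∅ f hf j u (by simp) (by simp)
            · exact hf.1 i j hj u
          exact (hG (f i) hc v v0).trans (h0 i)
        have h5 := LinearMap.finrank_le_finrank_of_injective hL
        rwa [Module.finrank_fintype_fun_eq_card, Fintype.card_fin] at h5
    rw [rk]
    have : (0 : ℤ) ≤ (#(EW m φ (∅ : Finset V) ∩ Reps m φ) : ℤ) := Int.natCast_nonneg _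
    simp only [Finset.card_empty, Nat.cast_zero]
    omega
  · have := finrank_FS_EW m hm hG φ hφ W hW
    rw [rk, hEW]
    omega

end K4HD
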