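import Mathlib

/-!
# MP_8634e8_co : class 1 cubic graphs times `K₄`, definitions

A connected cubic graph with a proper 3-edge-colouring is given by its three mate functions
`m 0, m 1, m 2 : V → V` (fixed-point-free involutions). A *choice* `k : V → Fin 3` selects the edge
`v – m (k v) v` at every vertex `v`; `B` is the set of selected edges. An edge `v – m j v` is *active*
if it is not selected, that is `k v ≠ j` and `k (m j v) ≠ j`. The graph `H_i` is `G` without the
selected edges of colour `i`.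
-/

namespace K4HD

/-- three fixed-point-free involutions -/
def Mates {V : Type*} (m : Fin 3 → V → V) : Prop :=
  (∀ i v, m i (m i v) = v) ∧ ∀ i v, m i v ≠ v

/-- the graph with the edges `v – m i v` is connected: every locally constant function is constant -/
def GConn {V : Type*} (m : Fin 3 → V → V) : Prop :=
  ∀ f : V → ZMod 2, (∀ i v, f (m i v) = f v) → ∀ u v, f u = f v

/-- `f` is constant along the edges of `H_i` -/
def HConst {V : Type*} (m : Fin 3 → V → V) (k : V → Fin 3) (i : Fin 3) (f : V → ZMod 2) : Prop :=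
  (∀ j, j ≠ i → ∀ v, f (m j v) = f v) ∧ ∀ v, k v ≠ i → k (m i v) ≠ i → f (m i v) = f v

/-- different vertices select different edges, and every `H_i` is connected -/
def Valid {V : Type*} (m : Fin 3 → V → V) (k : V → Fin 3) : Prop :=
  (∀ v, k (m (k v) v) ≠ k v) ∧ ∀ i f, HConst m k i f → ∀ u v, f u = f v

/-- the edge `v – m i v` is a bridge of `H_i` -/
def Bridge {V : Type*} (m : Fin 3 → V → V) (k : V → Fin 3) (i : Fin 3) (v : V) : Prop :=
  ∃ g : V → ZMod 2, (∀ j, j ≠ i → ∀ u, g (m j u) = g u) ∧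
    (∀ u, k u ≠ i → k (m i u) ≠ i → u ≠ v → u ≠ m i v → g (m i u) = g u) ∧ g (m i v) ≠ g v

/-- the three perfect matchings `01|23`, `02|13`, `03|12` of `K₄` -/
def nu : Fin 3 → Fin 4 → Fin 4 := ![![1, 0, 3, 2], ![2, 3, 0, 1], ![3, 2, 1, 0]]

/-- the shifts of the levels -/
def sg : Fin 4 → Fin 3 := ![0, 1, 2, 0]

/-- horizontal mate in class `i` -/
def al {V : Type*} (m : Fin 3 → V → V) (i : Fin 3) (p : V × Fin 4) : V × Fin 4 :=
  (m (i + sg p.2) p.1, p.2)

/-- `f` is constant along the edges of class `i`, except possibly inside the fibre of a vertex of `S`.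
`U` is the set of the unsplit vertices, `τ v i` is the matching of class `i` in the fibre of `v`. -/
def LocC {V : Type*} (m : Fin 3 → V → V) (k : V → Fin 3) (τ : V → Fin 3 → Fin 3) (U S : Set V)
    (i : Fin 3) (f : V × Fin 4 → ZMod 2) : Prop :=
  (∀ p, f (al m i p) = f p) ∧
  (∀ v, v ∉ S → (v ∉ U ∨ k v = i) → ∀ h, f (v, nu (τ v i) h) = f (v, h)) ∧
  (∀ v, v ∉ S → v ∈ U → k v ≠ i → ∀ h h', f (v, h) = f (v, h'))

/-- class `i` is connected -/
def ClassConn {V : Type*} (m : Fin 3 → V → V) (k : V → Fin 3) (τ : V → Fin 3 → Fin 3) (U : Set V)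
    (i : Fin 3) : Prop :=
  ∀ f, LocC m k τ U ∅ i f → ∀ p q, f p = f q

end K4HD
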