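import Pool.Agent.K4HD.Rado
import Pool.Agent.K4HD.Count

/-!
# Existence of a valid choice
-/

namespace K4HD

open Finset
open scoped Classical

/-- the representative of an edge -/
private noncomputable def rep {V : Type*} (m : Fin 3 → V → V) (φ : V → ℕ) (p : V × Fin 3) :
    V × Fin 3 :=
  if φ p.1 < φ (m p.2 p.1) then p else (m p.2 p.1, p.2)

private lemma rep_of_lt {V : Type*} (m : Fin 3 → V → V) (φ : V → ℕ) (v : V) (j : Fin 3)
    (h : φ v < φ (m j v)) : rep m φ (v, j) = (v, j) := if_pos h

private lemma rep_mate {V : Type*} (m : Fin 3 → V → V) (hm : Mates m) (φ : V → ℕ) (v : V)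
    (j : Fin 3) (h : φ v < φ (m j v)) : rep m φ (m j v, j) = (v, j) := by
  have h1 : ¬ φ (m j v) < φ (m j (m j v)) := by
    rw [hm.1]
    exact not_lt.2 h.le
  rw [rep, if_neg h1]
  simp only
  rw [hm.1]

private lemma rep_swap {V : Type*} (m : Fin 3 → V → V) (hm : Mates m) (φ : V → ℕ)
    (hφ : Function.Injective φ) (v : V) (j : Fin 3) :
    rep m φ (m j v, j) = rep m φ (v, j) := by
  rcases lt_trichotomy (φ v) (φ (m j v)) with h | h | h
  · rw [rep_of_lt m φ v j h, rep_mate m hm φ v j h]
  · exact absurd (hφ h).symm (hm.2 j v)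
  · have h1 : φ (m j v) < φ (m j (m j v)) := by rw [hm.1]; exact h
    have h2 := rep_mate m hm φ (m j v) j h1
    rw [hm.1] at h2
    rw [rep_of_lt m φ (m j v) j h1, h2]

theorem exists_valid {V : Type*} [Fintype V] (m : Fin 3 → V → V) (hm : Mates m) (hG : GConn m) :
    ∃ k, Valid m k := by
  let φ : V → ℕ := fun v => (Fintype.equivFin V v : ℕ)
  have hφ : Function.Injective φ := fun a b h => (Fintype.equivFin V).injective (Fin.ext h)
  obtain ⟨k, hk⟩ := rado (fun S : Finset (V × Fin 3) => rk m φ (S.image (rep m φ)))
    (fun S T h => rk_mono m φ _ _ (Finset.image_subset_image h))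
    (fun S T => by
      have h1 := rk_submod m φ (S.image (rep m φ)) (T.image (rep m φ))
      have h2 := rk_mono m φ _ _ (Finset.image_inter_subset (rep m φ) S T)
      rw [Finset.image_union]
      omega)
    (fun W => by
      refine (rk_EW m hm hG φ hφ W).trans (rk_mono m φ _ _ ?_)
      rintro ⟨v, j⟩ hp
      simp only [EW, mem_filter, mem_univ, true_and] at hp
      rw [Finset.mem_image]
      rcases hp.2 with h | h
      · exact ⟨(v, j), by simp [h], rep_of_lt m φ v j hp.1⟩
      · exact ⟨(m j v, j), by simp [h], rep_mate m hm φ v j hp.1⟩)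
  rcases isEmpty_or_nonempty V with hV | ⟨⟨v0⟩⟩
  · exact ⟨k, fun v => (hV.false v).elim, fun i f _ u => (hV.false u).elim⟩
  let B : Finset (V × Fin 3) := (univ.image fun v => (v, k v)).image (rep m φ)
  have hB : (#(univ : Finset V) : ℤ) ≤ #(B ∩ Reps m φ) + 3 - Module.finrank (ZMod 2) (FS m φ B) :=
    hk univ
  let L : (Fin 3 → ZMod 2) →ₗ[ZMod 2] FS m φ B :=
    { toFun := fun c => ⟨fun i _ => c i, fun _ _ _ _ => rfl, fun _ _ _ _ => rfl⟩
      map_add' := fun x y => rfl
      map_smul' := fun c x => rfl }
  have hL : Function.Injective L := by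
    intro x y hxy
    funext i
    have h' : (L x).1 = (L y).1 := congrArg (fun z : FS m φ B => z.1) hxy
    exact congrFun (congrFun h' i) v0
  have h3 : 3 ≤ Module.finrank (ZMod 2) (FS m φ B) := by
    have := LinearMap.finrank_le_finrank_of_injective hL
    rwa [Module.finrank_fintype_fun_eq_card, Fintype.card_fin] at this
  have hBB : B = univ.image (fun v => rep m φ (v, k v)) := by
    simp only [B]
    rw [Finset.image_image]
    rfl
  have hc1 : #B ≤ #(univ : Finset V) := by
    rw [hBB]
    exact Finset.card_image_le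
  have hc2 : #(B ∩ Reps m φ) ≤ #B := Finset.card_le_card Finset.inter_subset_left
  have hcard : #(univ.image (fun v => rep m φ (v, k v))) = #(univ : Finset V) := by
    rw [← hBB]
    omega
  have hfr : Module.finrank (ZMod 2) (Fin 3 → ZMod 2) = Module.finrank (ZMod 2) (FS m φ B) := by
    rw [Module.finrank_fintype_fun_eq_card, Fintype.card_fin]
    omega
  have hsurj : Function.Surjective L :=
    (LinearMap.injective_iff_surjective_of_finrank_eq_finrank hfr).1 hL
  have hinj : Function.Injective (fun v => rep m φ (v, k v)) := by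
    have := Finset.card_image_iff.1 hcard
    rwa [Finset.coe_univ, Set.injOn_univ] at this
  refine ⟨k, fun v hv => ?_, fun i f hf u v => ?_⟩
  · have h4 : (fun v => rep m φ (v, k v)) (m (k v) v) = (fun v => rep m φ (v, k v)) v := by
      simp only
      rw [hv]
      exact rep_swap m hm φ hφ v (k v)
    exact hm.2 _ _ (hinj h4)
  · have hmem : (Pi.single i f : Fin 3 → V → ZMod 2) ∈ FS m φ B := by
      refine ⟨fun i' j hj w => ?_, fun i' w hw hS => ?_⟩
      · by_cases hi : i' = i
        · subst hi
          rw [Pi.single_eq_same]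
          exact hf.1 j hj w
        · rw [Pi.single_eq_of_ne hi]
          rfl
      · by_cases hi : i' = i
        · subst hi
          rw [Pi.single_eq_same]
          refine hf.2 w ?_ ?_
          · intro hkw
            apply hS
            rw [hBB, Finset.mem_image]
            exact ⟨w, mem_univ _, by rw [hkw]; exact rep_of_lt m φ w i' hw⟩
          · intro hkw
            apply hS
            rw [hBB, Finset.mem_image]
            exact ⟨m i' w, mem_univ _, by rw [hkw]; exact rep_mate m hm φ w i' hw⟩
        · rw [Pi.single_eq_of_ne hi]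
          rfl
    obtain ⟨c, hc⟩ := hsurj ⟨_, hmem⟩
    have h5 : (fun i (_ : V) => c i) = (Pi.single i f : Fin 3 → V → ZMod 2) :=
      congrArg (fun z : FS m φ B => z.1) hc
    have h6 : ∀ w, f w = c i := by
      intro w
      have := congrFun (congrFun h5 i) w
      rw [Pi.single_eq_same] at this
      exact this.symm
    rw [h6 u, h6 v]

end K4HD
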