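import Pool.Agent.H93HD.HamConv
import Pool.Agent.K4HD.Defs

/-!
# From the splitting to the Hamiltonian decomposition
-/

namespace K4HD

open Finset
open scoped Classical

/-- the mate functions of a cubic graph with a proper 3-edge-colouring -/
theorem exists_mates {V : Type*} [Fintype V] (G : SimpleGraph V) [DecidableRel G.Adj]
    (hreg : G.IsRegularOfDegree 3) (hcol : G.lineGraph.Colorable 3) :
    ∃ m : Fin 3 → V → V, Mates m ∧ (∀ v w, G.Adj v w ↔ ∃ i, m i v = w) ∧
      ∀ i j v, m i v = m j v → i = j := by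
  obtain ⟨C⟩ := hcol
  have huniq : ∀ (v w w' : V) (h : G.Adj v w) (h' : G.Adj v w'),
      C ⟨s(v, w), h⟩ = C ⟨s(v, w'), h'⟩ → w = w' := by
    intro v w w' h h' hC
    by_contra hne
    refine C.valid (v := ⟨s(v, w), h⟩) (w := ⟨s(v, w'), h'⟩) ?_ hC
    refine ⟨fun he => hne ?_, v, ?_, ?_⟩
    · exact Sym2.congr_right.1 (congrArg Subtype.val he)
    · exact Sym2.mem_mk_left v w
    · exact Sym2.mem_mk_left v w'
  have hex : ∀ (i : Fin 3) (v : V), ∃ w, ∃ h : G.Adj v w, C ⟨s(v, w), h⟩ = i := by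
    intro i v
    let F : G.neighborSet v → Fin 3 := fun w => C ⟨s(v, w.1), w.2⟩
    have hF : Function.Injective F := by
      intro a b hab
      exact Subtype.ext (huniq v a.1 b.1 a.2 b.2 hab)
    have hcard : Fintype.card (G.neighborSet v) = Fintype.card (Fin 3) := by
      rw [G.card_neighborSet_eq_degree, hreg v, Fintype.card_fin]
    obtain ⟨w, hw⟩ := ((Fintype.bijective_iff_injective_and_card F).2 ⟨hF, hcard⟩).2 i
    exact ⟨w.1, w.2, hw⟩
  choose m hm hC using hex
  have hadj : ∀ v w (h : G.Adj v w), m (C ⟨s(v, w), h⟩) v = w := fun v w h =>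
    huniq v _ w (hm _ v) h (hC _ v)
  refine ⟨m, ⟨fun i v => ?_, fun i v => ?_⟩, fun v w => ⟨fun h => ⟨_, hadj v w h⟩, ?_⟩, ?_⟩
  · have h1 := hadj (m i v) v (hm i v).symm
    have h3 : (⟨s(m i v, v), (hm i v).symm⟩ : G.edgeSet) = ⟨s(v, m i v), hm i v⟩ :=
      Subtype.ext Sym2.eq_swap
    rwa [h3, hC i v] at h1
  · exact (hm i v).ne'
  · rintro ⟨i, rfl⟩
    exact hm i v
  · intro i j v h
    have h3 : (⟨s(v, m i v), hm i v⟩ : G.edgeSet) = ⟨s(v, m j v), hm j v⟩ :=
      Subtype.ext (congrArg (fun w => s(v, w)) h)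
    rw [← hC i v, h3, hC j v]

private lemma nu_nu : ∀ a h, nu a (nu a h) = h := by decide

private lemma nu_ne : ∀ a h, nu a h ≠ h := by decide

private lemma nu_ex : ∀ h h', h ≠ h' → ∃ a, nu a h = h' := by decide

private lemma nu_inj : ∀ h a b, nu a h = nu b h → a = b := by decide

private lemma nu_unique (h h' : Fin 4) (hh : h ≠ h') : ∃! a, nu a h = h' := by
  obtain ⟨a, ha⟩ := nu_ex h h' hh
  exact ⟨a, ha, fun b hb => nu_inj h b a (hb.trans ha.symm)⟩

theorem hamDecomp_of_split {V : Type*} [Fintype V] [inst : DecidableEq V] [Nonempty V]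
    (G : SimpleGraph V) (m : Fin 3 → V → V)
    (hm : Mates m) (hadj : ∀ v w, G.Adj v w ↔ ∃ i, m i v = w)
    (hinj : ∀ i j v, m i v = m j v → i = j)
    (τ : V → Fin 3 → Fin 3) (hb : ∀ v, Function.Bijective (τ v))
    (hconn : ∀ (i : Fin 3) (f : V × Fin 4 → ZMod 2), (∀ p, f (al m i p) = f p) →
        (∀ v h, f (v, nu (τ v i) h) = f (v, h)) → ∀ p q, f p = f q) :
    H93HD.HamDecomp (G □ (⊤ : SimpleGraph (Fin 4))) 3 := by
  let be : Fin 3 → V × Fin 4 → V × Fin 4 := fun i p => (p.1, nu (τ p.1 i) p.2)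
  have hal : ∀ i p, al m i (al m i p) = p := fun i p => by
    simp only [al]
    rw [hm.1]
  have hbe : ∀ i p, be i (be i p) = p := fun i p => by
    simp only [be]
    rw [nu_nu]
  have hal1 : ∀ i p, (al m i p).1 ≠ p.1 := fun i p => hm.2 _ _
  have hbe2 : ∀ i p, (be i p).2 ≠ p.2 := fun i p => nu_ne _ _
  let X : Fin 3 → Sym2 (V × Fin 4) → ZMod 2 := fun i e =>
    if (∃ p, e = s(p, al m i p)) ∨ (∃ p, e = s(p, be i p)) then 1 else 0
  have hX1 : ∀ i e, X i e = 1 ↔ (∃ p, e = s(p, al m i p)) ∨ (∃ p, e = s(p, be i p)) := by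
    intro i e
    simp only [X]
    split_ifs with h
    · exact ⟨fun _ => h, fun _ => rfl⟩
    · exact ⟨fun h' => absurd h' (by decide), fun h' => absurd h' h⟩
  have hX : ∀ i p q, X i s(p, q) = 1 ↔ (q = al m i p ∨ q = be i p) := by
    intro i p q
    rw [hX1]
    constructor
    · rintro (⟨r, hr⟩ | ⟨r, hr⟩)
      · rcases Sym2.eq_iff.1 hr with ⟨rfl, rfl⟩ | ⟨rfl, rfl⟩
        · exact Or.inl rfl
        · exact Or.inl (hal i _).symm
      · rcases Sym2.eq_iff.1 hr with ⟨rfl, rfl⟩ | ⟨rfl, rfl⟩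
        · exact Or.inr rfl
        · exact Or.inr (hbe i _).symm
    · rintro (rfl | rfl)
      · exact Or.inl ⟨p, rfl⟩
      · exact Or.inr ⟨p, rfl⟩
  have htwo : ∀ i, H93HD.TwoReg (X i) := by
    intro i p
    refine ⟨al m i p, be i p, fun h => ?_, fun h => ?_, fun h => ?_, fun q => hX i p q⟩
    · have h' : (al m i p).1 = (be i p).1 := congrArg Prod.fst h
      exact hal1 i p h'
    · exact hal1 i p (congrArg Prod.fst h)
    · exact hbe2 i p (congrArg Prod.snd h)
  have hcn : ∀ i, ∀ x y, H93HD.Conn (X i) x y := by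
    intro i x y
    let f : V × Fin 4 → ZMod 2 := fun p => if H93HD.Conn (X i) x p then 0 else 1
    have hstep : ∀ p q, X i s(p, q) = 1 → f q = f p := by
      intro p q h
      have : H93HD.Conn (X i) x q ↔ H93HD.Conn (X i) x p :=
        ⟨fun h' => h'.trans (H93HD.Conn.single h).symm, fun h' => h'.trans (H93HD.Conn.single h)⟩
      simp only [f, this]
    have h1 := hconn i f (fun p => hstep _ _ ((hX i _ _).2 (Or.inl rfl)))
      (fun v h => hstep (v, h) _ ((hX i _ _).2 (Or.inr rfl))) x y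
    have h2 : f x = 0 := if_pos (H93HD.Conn.refl x)
    rw [h2] at h1
    by_contra hc
    have h3 : f y = 1 := if_neg hc
    rw [h3] at h1
    exact absurd h1 (by decide)
  have hle : ∀ i e, X i e = 1 → e ∈ (G □ (⊤ : SimpleGraph (Fin 4))).edgeSet := by
    intro i e he
    rcases (hX1 i e).1 he with ⟨p, rfl⟩ | ⟨p, rfl⟩
    · rw [SimpleGraph.mem_edgeSet, SimpleGraph.boxProd_adj]
      exact Or.inl ⟨(hadj _ _).2 ⟨_, rfl⟩, rfl⟩
    · rw [SimpleGraph.mem_edgeSet, SimpleGraph.boxProd_adj]
      exact Or.inr ⟨(hbe2 i p).symm, rfl⟩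
  have huq : ∀ e ∈ (G □ (⊤ : SimpleGraph (Fin 4))).edgeSet, ∃! i, X i e = 1 := by
    intro e he
    induction e with
    | _ p q =>
      rw [SimpleGraph.mem_edgeSet, SimpleGraph.boxProd_adj] at he
      rcases he with ⟨h1, h2⟩ | ⟨h1, h2⟩
      · obtain ⟨j, hj⟩ := (hadj _ _).1 h1
        refine ⟨j - sg p.2, ?_, fun i hi => ?_⟩
        · simp only
          rw [hX]
          left
          refine Prod.ext ?_ h2.symm
          simp only [al]
          rw [sub_add_cancel, hj]
        · simp only at hi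
          rw [hX] at hi
          rcases hi with hi | hi
          · have h3 : m (i + sg p.2) p.1 = m j p.1 := by
              rw [hj]
              exact (congrArg Prod.fst hi).symm
            rw [← hinj _ _ _ h3, add_sub_cancel_right]
          · exact absurd (by rw [← hi]; exact h2.symm) (hbe2 i p)
      · obtain ⟨a, ha, hau⟩ := nu_unique p.2 q.2 h1
        obtain ⟨i, hi⟩ := (hb p.1).2 a
        refine ⟨i, ?_, fun i' hi' => ?_⟩
        · simp only
          rw [hX]
          right
          refine Prod.ext h2.symm ?_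
          simp only [be]
          rw [hi, ha]
        · simp only at hi'
          rw [hX] at hi'
          rcases hi' with hi' | hi'
          · exact absurd (by rw [← hi']; exact h2.symm) (hal1 i' p)
          · apply (hb p.1).1
            rw [hi]
            exact hau _ (congrArg Prod.snd hi').symm
  have h1 := fun i => H93HD.hamCycle_of_class _ (X i) (htwo i) (hcn i) (hle i)
  choose a c hc hce using h1
  refine ⟨a, c, hc, fun e he => ?_⟩
  simp only [hce]
  exact huq e he

end K4HD
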