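import Pool.Agent.K4HD.Defs

/-!
# No bad cycles
-/

namespace K4HD

open Finset
open scoped Classical

/-- the number of functions that are constant on the active edges -/
private noncomputable def act {V : Type*} [Fintype V] (m : Fin 3 → V → V) (k : V → Fin 3) :
    Finset (V → ZMod 2) :=
  Finset.univ.filter fun f => ∀ j v, k v ≠ j → k (m j v) ≠ j → f (m j v) = f v

private theorem mem_act {V : Type*} [Fintype V] (m : Fin 3 → V → V) (k : V → Fin 3)
    (f : V → ZMod 2) : f ∈ act m k ↔ ∀ j v, k v ≠ j → k (m j v) ≠ j → f (m j v) = f v := by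
  simp [act]

private theorem exists_argmin {α : Type*} (P : α → Prop) (c : α → ℕ) (h : ∃ a, P a) :
    ∃ a, P a ∧ ∀ b, P b → c a ≤ c b := by
  obtain ⟨a, ha⟩ := h
  have hex : ∃ n, ∃ a, P a ∧ c a = n := ⟨c a, a, ha, rfl⟩
  obtain ⟨b, hb, hbn⟩ := Nat.find_spec hex
  refine ⟨b, hb, fun d hd => ?_⟩
  rw [hbn]
  exact Nat.find_min' hex ⟨d, hd, rfl⟩

/-- the parity argument on the darts inside a bad set -/
private theorem dart_parity {V : Type*} [Fintype V] (m : Fin 3 → V → V) (hm : Mates m)
    (k : V → Fin 3) (A : Finset V) (v : V) (hv : v ∈ A) (j : Fin 3) (hj : j ≠ k v)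
    (hcl : ∀ u ∈ A, ∀ i, i ≠ k u → ¬ (u = v ∧ i = j) →
      m i u ∈ A ∧ i ≠ k (m i u) ∧ ¬ (m i u = v ∧ i = j)) : False := by
  set D : Finset (V × Fin 3) := (A ×ˢ Finset.univ).filter fun p => p.2 ≠ k p.1 with hD
  have h1 : ∑ p ∈ D, (1 : ZMod 2) = 0 := by
    rw [hD, Finset.sum_filter, Finset.sum_product]
    apply Finset.sum_eq_zero
    intro u hu
    have : ∀ a : Fin 3, ∑ x : Fin 3, (if x ≠ a then (1 : ZMod 2) else 0) = 0 := by decide
    exact this (k u)
  have hvD : (v, j) ∈ D := by
    simp [hD, hv, hj]
  have h2 : ∑ p ∈ D.erase (v, j), (1 : ZMod 2) = 0 := by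
    refine Finset.sum_involution (fun p _ => (m p.2 p.1, p.2)) ?_ ?_ ?_ ?_
    · intro p hp
      decide
    · intro p hp _ h
      exact hm.2 p.2 p.1 (congrArg Prod.fst h)
    · intro p hp
      rw [Finset.mem_erase, hD, Finset.mem_filter, Finset.mem_product] at hp
      obtain ⟨hne, ⟨hpA, -⟩, hpk⟩ := hp
      have := hcl p.1 hpA p.2 hpk (fun h => hne (Prod.ext h.1 h.2))
      rw [Finset.mem_erase, hD, Finset.mem_filter, Finset.mem_product]
      refine ⟨fun h => this.2.2 ⟨congrArg Prod.fst h, congrArg Prod.snd h⟩,
        ⟨this.1, Finset.mem_univ _⟩, this.2.1⟩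
    · intro p hp
      simp only [hm.1]
  have h3 := Finset.add_sum_erase D (fun _ => (1 : ZMod 2)) hvD
  rw [h1, h2] at h3
  revert h3
  decide

/-- a choice without bad sets -/
theorem exists_noBad {V : Type*} [Fintype V] (m : Fin 3 → V → V) (hm : Mates m)
    (h : ∃ k, Valid m k) :
    ∃ k, Valid m k ∧ ∀ C : Finset V, C.Nonempty → ∃ v ∈ C, ∃ j, j ≠ k v ∧
      (k (m j v) = j ∨ Bridge m k j v ∨ m j v ∉ C) := by
  obtain ⟨k, hk, hmin⟩ := exists_argmin (Valid m) (fun k => (act m k).card) h
  refine ⟨k, hk, fun C hC => ?_⟩
  by_contra hno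
  push Not at hno
  obtain ⟨v, hv⟩ := hC
  obtain ⟨j, hj⟩ : ∃ j : Fin 3, j ≠ k v := ⟨k v + 1, by generalize k v = a; revert a; decide⟩
  have hw := hno v hv j hj
  have hwv : m j v ≠ v := hm.2 j v
  set k' : V → Fin 3 := Function.update k v j with hk'
  have k'v : k' v = j := by simp [hk']
  have k'u : ∀ u, u ≠ v → k' u = k u := fun u hu => by simp [hk', Function.update_of_ne hu]
  have k'ne : ∀ u i, i ≠ j → k u ≠ i → k' u ≠ i := by
    intro u i hi hu
    by_cases h : u = v
    · rw [h, k'v]; exact fun h => hi h.symm
    · rw [k'u u h]; exact hu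
  have hback : ∀ u, m j u = v → u = m j v := fun u hu => by rw [← hu, hm.1]
  have hval : Valid m k' := by
    refine ⟨fun u => ?_, fun i f hf => ?_⟩
    · by_cases huv : u = v
      · rw [huv, k'v, k'u _ hwv]
        exact hw.1
      · rw [k'u u huv]
        by_cases hx : m (k u) u = v
        · rw [hx, k'v]
          intro hju
          rw [← hju] at hx
          have := hback u hx
          apply hw.1
          rw [← this, hju]
        · rw [k'u _ hx]
          exact hk.1 u
    · apply hk.2 i f
      by_cases hij : i = j
      · subst hij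
        have hvw : f (m i v) = f v := by
          by_contra hne
          apply hw.2.1
          refine ⟨f, hf.1, fun u hu hmu huv huw => ?_, hne⟩
          apply hf.2 u
          · rw [k'u u huv]; exact hu
          · rw [k'u _ (fun h => huw (hback u h))]; exact hmu
        refine ⟨hf.1, fun u hu hmu => ?_⟩
        by_cases huv : u = v
        · rw [huv]; exact hvw
        · by_cases huw : m i u = v
          · have := hback u huw
            rw [huw, this, hvw]
          · apply hf.2 u
            · rw [k'u u huv]; exact hu
            · rw [k'u _ huw]; exact hmu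
      · exact ⟨hf.1, fun u hu hmu => hf.2 u (k'ne u i hij hu) (k'ne _ i hij hmu)⟩
  have hsub : act m k' ⊂ act m k := by
    rw [Finset.ssubset_iff_subset_ne]
    constructor
    · intro f hf
      rw [mem_act] at hf ⊢
      have hvw : f (m j v) = f v := by
        by_contra hne
        refine dart_parity m hm k (C.filter fun u => f u = f v) v (by simp [hv]) j hj ?_
        intro u hu i hi hnot
        rw [Finset.mem_filter] at hu
        obtain ⟨huC, hfu⟩ := hu
        obtain ⟨h1, h2, h3⟩ := hno u huC i hi
        have huw : ¬ (i = j ∧ m i u = v) := by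
          rintro ⟨rfl, hh⟩
          apply hne
          rw [← hback u hh]
          exact hfu
        have hfe : f (m i u) = f u := by
          by_cases hij : i = j
          · subst hij
            have huv : u ≠ v := fun h => hnot ⟨h, rfl⟩
            have hmv : m i u ≠ v := fun h => huw ⟨rfl, h⟩
            apply hf i u
            · rw [k'u u huv]; exact hi.symm
            · rw [k'u _ hmv]; exact h1
          · exact hf i u (k'ne u i hij hi.symm) (k'ne _ i hij h1)
        refine ⟨?_, fun h => h1 h.symm, fun h => huw ⟨h.2, h.1⟩⟩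
        rw [Finset.mem_filter]
        exact ⟨h3, hfe.trans hfu⟩
      intro i u hu hmu
      by_cases hij : i = j
      · subst hij
        by_cases huv : u = v
        · rw [huv]; exact hvw
        · by_cases huw : m i u = v
          · have := hback u huw
            rw [huw, this, hvw]
          · apply hf i u
            · rw [k'u u huv]; exact hu
            · rw [k'u _ huw]; exact hmu
      · exact hf i u (k'ne u i hij hu) (k'ne _ i hij hmu)
    · intro heq
      have hin : (fun u => if u ∈ C then (1 : ZMod 2) else 0) ∈ act m k := by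
        rw [mem_act]
        intro i u hu hmu
        have : m i u ∈ C ↔ u ∈ C := by
          constructor
          · intro h
            have := (hno _ h i hmu.symm).2.2
            rwa [hm.1] at this
          · intro h
            exact (hno u h i hu.symm).2.2
        simp only [this]
      rw [← heq, mem_act] at hin
      have hx : k (m (k v) v) ≠ k v := hk.1 v
      have hxv : m (k v) v ≠ v := hm.2 _ _
      have := hin (k v) v (by rw [k'v]; exact hj) (by rw [k'u _ hxv]; exact hx)
      simp only [hv, if_true] at this
      have hxC : m (k v) v ∈ C := by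
        by_contra hh
        rw [if_neg hh] at this
        exact absurd this (by decide)
      have := (hno _ hxC (k v) hx.symm).1
      rw [hm.1] at this
      exact this rfl
  have := Finset.card_lt_card hsub
  exact absurd (hmin k' hval) (not_le.2 this)

/-- the processing times -/
theorem exists_order {V : Type*} [Fintype V] (m : Fin 3 → V → V) (k : V → Fin 3)
    (h : ∀ C : Finset V, C.Nonempty → ∃ v ∈ C, ∃ j, j ≠ k v ∧
      (k (m j v) = j ∨ Bridge m k j v ∨ m j v ∉ C)) :
    ∃ t : V → ℕ, ∀ v, ∃ j, j ≠ k v ∧ (k (m j v) = j ∨ Bridge m k j v ∨ t v < t (m j v)) := by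
  have key : ∀ n : ℕ, ∀ C : Finset V, C.card = n → ∃ t : V → ℕ, ∀ v ∈ C, ∃ j, j ≠ k v ∧
      (k (m j v) = j ∨ Bridge m k j v ∨ t v < t (m j v)) := by
    intro n
    induction n with
    | zero =>
      intro C hC
      rw [Finset.card_eq_zero] at hC
      subst hC
      exact ⟨fun _ => 0, fun v hv => absurd hv (Finset.notMem_empty v)⟩
    | succ n ih =>
      intro C hC
      have hne : C.Nonempty := by
        rw [← Finset.card_pos, hC]; omega
      obtain ⟨v, hv, j, hj, hcase⟩ := h C hne
      obtain ⟨t', ht'⟩ := ih (C.erase v) (by rw [Finset.card_erase_of_mem hv, hC]; rfl)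
      set N : ℕ := (Finset.univ.sup t') + 1 with hN
      have hlt : ∀ u, t' u < N := fun u => Nat.lt_succ_of_le (Finset.le_sup (Finset.mem_univ u))
      refine ⟨fun w => if w ∈ C.erase v then t' w else if w = v then N else N + 1, fun u hu => ?_⟩
      by_cases huv : u = v
      · subst huv
        refine ⟨j, hj, ?_⟩
        rcases hcase with h1 | h1 | h1
        · exact Or.inl h1
        · exact Or.inr (Or.inl h1)
        · right; right
          have h2 : m j u ≠ u := fun hh => h1 (hh.symm ▸ hv)
          have h3 : m j u ∉ C.erase u := fun hh => h1 (Finset.mem_of_mem_erase hh)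
          simp only [Finset.notMem_erase, if_false, if_true, h3, h2]
          omega
      · have huC : u ∈ C.erase v := Finset.mem_erase.2 ⟨huv, hu⟩
        obtain ⟨i, hi, hcase'⟩ := ht' u huC
        refine ⟨i, hi, ?_⟩
        rcases hcase' with h1 | h1 | h1
        · exact Or.inl h1
        · exact Or.inr (Or.inl h1)
        · right; right
          simp only [huC, if_true]
          have := hlt u
          split_ifs <;> omega
  obtain ⟨t, ht⟩ := key _ Finset.univ rfl
  exact ⟨t, fun v => ht v (Finset.mem_univ v)⟩

end K4HD
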