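import Pool.Agent.K4HD.Defs

/-!
# Parity: bad matchings of a fibre
-/

namespace K4HD

open Finset
open scoped Classical

variable {V : Type*}

private theorem even_of_invol {α : Type*} (s : Finset α) (g : α → α) (h1 : ∀ a ∈ s, g a ∈ s)
    (h2 : ∀ a ∈ s, g a ≠ a) (h3 : ∀ a ∈ s, g (g a) = a) : Even #s := by
  have h : ∑ _a ∈ s, (1 : ZMod 2) = 0 :=
    Finset.sum_involution (fun a _ => g a) (fun a _ => by decide) (fun a ha _ => h2 a ha)
      (fun a ha => h1 a ha) (fun a ha => h3 a ha)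
  rw [Finset.sum_const, nsmul_eq_mul, mul_one] at h
  exact (ZMod.natCast_eq_zero_iff_even).1 h

private theorem nu_invol (a : Fin 3) (h : Fin 4) : nu a (nu a h) = h := by
  revert a h; decide

private theorem nu_ne (a : Fin 3) (h : Fin 4) : nu a h ≠ h := by
  revert a h; decide

private theorem nu_inj (a b : Fin 3) (h : nu a 0 = nu b 0) : a = b := by
  revert a b; decide

private theorem fib (F : Fin 4 → ZMod 2) (a : Fin 3) (hF : ∀ h, F (nu a h) = F h)
    (hn : ¬ ∀ h h', F h = F h') (h : Fin 4) (hh : F h = F 0) : h = 0 ∨ h = nu a 0 := by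
  have hz : ∀ x y z : ZMod 2, x ≠ z → y ≠ z → x = y := by decide
  by_contra hcon
  push Not at hcon
  apply hn
  -- `h` and `nu a h` are the two other points
  have h1 : ∀ a : Fin 3, ∀ h : Fin 4, h ≠ 0 → h ≠ nu a 0 → ∀ h' : Fin 4,
      h' = 0 ∨ h' = nu a 0 ∨ h' = h ∨ h' = nu a h := by decide
  have h2 : ∀ h', F h' = F 0 := by
    intro h'
    rcases h1 a h hcon.1 hcon.2 h' with rfl | rfl | rfl | rfl
    · rfl
    · exact hF 0
    · exact hh
    · rw [hF, hh]
  intro x y
  rw [h2 x, h2 y]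

private theorem al_al (m : Fin 3 → V → V) (hm : Mates m) (i : Fin 3) (p : V × Fin 4) :
    al m i (al m i p) = p := by
  obtain ⟨u, h⟩ := p
  show (m (i + sg h) (m (i + sg h) u), h) = (u, h)
  rw [hm.1]

private theorem al_ne (m : Fin 3 → V → V) (hm : Mates m) (i : Fin 3) (p : V × Fin 4) :
    al m i p ≠ p := by
  intro h
  exact hm.2 (i + sg p.2) p.1 (congrArg Prod.fst h)

/-- vertical mate -/
private noncomputable def bet (k : V → Fin 3) (τ : V → Fin 3 → Fin 3) (U : Set V) (i : Fin 3)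
    (p : V × Fin 4) : V × Fin 4 :=
  if p.1 ∈ U ∧ k p.1 ≠ i then (p.1, nu 2 p.2) else (p.1, nu (τ p.1 i) p.2)

private theorem bet_fst (k : V → Fin 3) (τ : V → Fin 3 → Fin 3) (U : Set V) (i : Fin 3)
    (p : V × Fin 4) : (bet k τ U i p).1 = p.1 := by
  unfold bet
  split_ifs <;> rfl

private theorem bet_ne (k : V → Fin 3) (τ : V → Fin 3 → Fin 3) (U : Set V) (i : Fin 3)
    (p : V × Fin 4) : bet k τ U i p ≠ p := by
  obtain ⟨u, h⟩ := p
  unfold bet
  by_cases hc : u ∈ U ∧ k u ≠ i
  · simp only [if_pos hc]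
    exact fun h1 => nu_ne 2 h (congrArg Prod.snd h1)
  · simp only [if_neg hc]
    exact fun h1 => nu_ne (τ u i) h (congrArg Prod.snd h1)

private theorem bet_bet (k : V → Fin 3) (τ : V → Fin 3 → Fin 3) (U : Set V) (i : Fin 3)
    (p : V × Fin 4) : bet k τ U i (bet k τ U i p) = p := by
  obtain ⟨u, h⟩ := p
  unfold bet
  by_cases hc : u ∈ U ∧ k u ≠ i
  · simp only [if_pos hc]
    rw [nu_invol]
  · simp only [if_neg hc]
    rw [nu_invol]

private theorem bet_const {m : Fin 3 → V → V} {k : V → Fin 3} {τ : V → Fin 3 → Fin 3} {U : Set V}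
    {v : V} {i : Fin 3} {f : V × Fin 4 → ZMod 2} (hf : LocC m k τ U {v} i f) (p : V × Fin 4)
    (hp : p.1 ≠ v) : f (bet k τ U i p) = f p := by
  obtain ⟨u, h⟩ := p
  have hu : u ∉ ({v} : Set V) := hp
  unfold bet
  by_cases hc : u ∈ U ∧ k u ≠ i
  · simp only [if_pos hc]
    exact hf.2.2 u hu hc.1 hc.2 _ _
  · simp only [if_neg hc]
    refine hf.2.1 u hu ?_ h
    by_contra hcon
    push Not at hcon
    exact hc ⟨hcon.1, hcon.2⟩

/-- two different matchings of the fibre of `v` cannot both be bad -/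
theorem two_bad [Finite V] (m : Fin 3 → V → V) (hm : Mates m) (k : V → Fin 3)
    (τ : V → Fin 3 → Fin 3) (hτ : ∀ v, τ v (k v) = 2) (U : Set V) (v : V) (i : Fin 3)
    (a b : Fin 3) (hab : a ≠ b) (f g : V × Fin 4 → ZMod 2)
    (hf : LocC m k τ U {v} i f) (hg : LocC m k τ U {v} i g)
    (hfa : ∀ h, f (v, nu a h) = f (v, h)) (hgb : ∀ h, g (v, nu b h) = g (v, h))
    (hf' : ¬ ∀ h h', f (v, h) = f (v, h')) (hg' : ¬ ∀ h h', g (v, h) = g (v, h')) : False := by
  have := Fintype.ofFinite V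
  set A : Finset (V × Fin 4) := univ.filter (fun p => f p = f (v, 0) ∧ g p = g (v, 0)) with hA
  have hmem : ∀ p, p ∈ A ↔ f p = f (v, 0) ∧ g p = g (v, 0) := fun p => by
    rw [hA, mem_filter]; exact ⟨fun h => h.2, fun h => ⟨mem_univ _, h⟩⟩
  have h0 : (v, (0 : Fin 4)) ∈ A := (hmem _).2 ⟨rfl, rfl⟩
  have hfib : ∀ p ∈ A, p.1 = v → p = (v, 0) := by
    rintro ⟨u, h⟩ hp huv
    obtain rfl : u = v := huv
    obtain ⟨h1, h2⟩ := (hmem _).1 hp
    have h3 := fib (fun h => f (u, h)) a hfa hf' h h1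
    have h4 := fib (fun h => g (u, h)) b hgb hg' h h2
    rcases h3 with rfl | h3
    · rfl
    · rcases h4 with rfl | h4
      · rfl
      · exact absurd (nu_inj a b (h3.symm.trans h4)) hab
  have e1 : Even #A := by
    refine even_of_invol A (al m i) (fun p hp => ?_) (fun p _ => al_ne m hm i p)
      (fun p _ => al_al m hm i p)
    rw [hmem] at hp ⊢
    rw [hf.1 p, hg.1 p]
    exact hp
  have e2 : Even #(A.erase (v, 0)) := by
    refine even_of_invol _ (bet k τ U i) (fun p hp => ?_) (fun p _ => bet_ne k τ U i p)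
      (fun p _ => bet_bet k τ U i p)
    rw [mem_erase] at hp
    have hpv : p.1 ≠ v := fun h => hp.1 (hfib p hp.2 h)
    rw [mem_erase, hmem, bet_const hf p hpv, bet_const hg p hpv]
    refine ⟨fun h => hpv ?_, (hmem p).1 hp.2⟩
    rw [← bet_fst k τ U i p, h]
  rw [card_erase_of_mem h0] at e2
  have : 0 < #A := card_pos.2 ⟨_, h0⟩
  obtain ⟨x, hx⟩ := e1
  obtain ⟨y, hy⟩ := e2
  omega

/-- `N₁` and `N₂` are good for class `j` at `v` if the edge of colour `j` at `v` is inactive, or a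
bridge, or leads to another unsplit vertex -/
theorem both_good [Finite V] (m : Fin 3 → V → V) (hm : Mates m) (k : V → Fin 3) (hk : Valid m k)
    (τ : V → Fin 3 → Fin 3) (hτ : ∀ v, τ v (k v) = 2) (U : Set V) (v : V) (j : Fin 3)
    (hj : j ≠ k v) (hcase : k (m j v) = j ∨ Bridge m k j v ∨ m j v ∈ U)
    (a : Fin 3) (ha : a ≠ 2) (f : V × Fin 4 → ZMod 2) (hf : LocC m k τ U {v} j f)
    (hfa : ∀ h, f (v, nu a h) = f (v, h)) : ∀ h h', f (v, h) = f (v, h') := by
  have := Fintype.ofFinite V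
  by_contra hn
  have hfib := fib (fun h => f (v, h)) a hfa hn
  have h03 : f (v, 3) ≠ f (v, 0) := by
    intro h
    rcases hfib 3 h with h1 | h1
    · exact absurd h1 (by decide)
    · exact (by decide : ∀ a : Fin 3, a ≠ 2 → (3 : Fin 4) ≠ nu a 0) a ha h1
  have hwv : m j v ∉ ({v} : Set V) := hm.2 j v
  have r : ∀ h, sg h = 0 → f (m j v, h) = f (v, h) := by
    intro h hh
    have h1 := hf.1 (v, h)
    simpa [al, hh] using h1
  -- the edge of colour `j` is not inactive
  have hkw : k (m j v) ≠ j := by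
    intro hkw
    have h1 := hf.2.1 (m j v) hwv (Or.inr hkw) 0
    have h2 : τ (m j v) j = 2 := by
      have := hτ (m j v)
      rwa [hkw] at this
    rw [h2] at h1
    have h3 : f (m j v, 3) = f (m j v, 0) := h1
    rw [r 3 rfl, r 0 rfl] at h3
    exact h03 h3
  rcases hcase with hc | hc | hc
  · exact hkw hc
  · obtain ⟨b, hb1, hb2, hb3⟩ := hc
    set σ : V × Fin 4 → ZMod 2 := fun p =>
      if (p.2 = 0 ∨ p.2 = 3) ∧ k p.1 = j then b (m j p.1) else b p.1 with hσ
    have σ1 : ∀ u h, k u ≠ j → σ (u, h) = b u := fun u h hu => by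
      rw [hσ]
      exact if_neg (fun h => hu h.2)
    have σ2 : ∀ u h, (h = 0 ∨ h = 3) → k u = j → σ (u, h) = b (m j u) := fun u h hh hu => by
      rw [hσ]
      exact if_pos ⟨hh, hu⟩
    have σ3 : ∀ u h, ¬ (h = 0 ∨ h = 3) → σ (u, h) = b u := fun u h hh => by
      rw [hσ]
      exact if_neg (fun h => hh h.1)
    set A : Finset (V × Fin 4) := univ.filter (fun p => f p = f (v, 0) ∧ σ p = b v) with hA
    have hmem : ∀ p, p ∈ A ↔ f p = f (v, 0) ∧ σ p = b v := fun p => by
      rw [hA, mem_filter]; exact ⟨fun h => h.2, fun h => ⟨mem_univ _, h⟩⟩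
    have h0 : (v, (0 : Fin 4)) ∈ A := (hmem _).2 ⟨rfl, σ1 v 0 (Ne.symm hj)⟩
    -- `σ` along the horizontal edges
    have hal : ∀ p ∈ A, p ≠ (v, 0) → σ (al m j p) = σ p := by
      rintro ⟨u, h⟩ hp hne
      obtain ⟨hp1, hp2⟩ := (hmem _).1 hp
      by_cases hh : h = 0 ∨ h = 3
      · have hs : sg h = 0 := by rcases hh with rfl | rfl <;> rfl
        have hal : al m j (u, h) = (m j u, h) := by simp [al, hs]
        rw [hal]
        by_cases hku : k u = j
        · have hk' : k (m j u) ≠ j := by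
            have := hk.1 u
            rwa [hku] at this
          rw [σ1 _ _ hk', σ2 _ _ hh hku]
        · by_cases hku' : k (m j u) = j
          · rw [σ2 _ _ hh hku', hm.1, σ1 _ _ hku]
          · rw [σ1 _ _ hku, σ1 _ _ hku']
            refine hb2 u hku hku' (fun huv => ?_) (fun huw => ?_)
            · subst huv
              rcases hh with rfl | rfl
              · exact hne rfl
              · exact h03 hp1
            · rw [σ1 _ _ hku, huw] at hp2
              exact hb3 hp2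
      · rw [σ3 _ _ hh]
        have hs : j + sg h ≠ j :=
          (by decide : ∀ j : Fin 3, ∀ h : Fin 4, ¬ (h = 0 ∨ h = 3) → j + sg h ≠ j) j h hh
        show σ (m (j + sg h) u, h) = b u
        rw [σ3 _ _ hh]
        exact hb1 _ hs u
    have e1 : Even #(A.erase (v, 0)) := by
      refine even_of_invol _ (al m j) (fun p hp => ?_) (fun p _ => al_ne m hm j p)
        (fun p _ => al_al m hm j p)
      rw [mem_erase] at hp
      have hp' := (hmem p).1 hp.2
      rw [mem_erase, hmem, hf.1 p, hal p hp.2 hp.1]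
      refine ⟨fun h => ?_, hp'⟩
      have h1 : p = (m j v, 0) := by
        rw [← al_al m hm j p, h]
        simp [al, sg]
      rw [h1, σ1 _ _ hkw] at hp'
      exact hb3 hp'.2
    have e2 : Even #(A.filter (fun p => p.1 ≠ v)) := by
      refine even_of_invol _ (bet k τ U j) (fun p hp => ?_) (fun p _ => bet_ne k τ U j p)
        (fun p _ => bet_bet k τ U j p)
      rw [mem_filter] at hp
      have hp' := (hmem p).1 hp.1
      rw [mem_filter, hmem, bet_const hf p hp.2, bet_fst]
      refine ⟨⟨hp'.1, ?_⟩, hp.2⟩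
      rw [← hp'.2]
      obtain ⟨u, h⟩ := p
      by_cases hku : k u = j
      · have h1 : bet k τ U j (u, h) = (u, nu 2 h) := by
          unfold bet
          rw [if_neg (fun h => h.2 hku)]
          show (u, nu (τ u j) h) = _
          have := hτ u
          rw [hku] at this
          rw [this]
        rw [h1]
        by_cases hh : h = 0 ∨ h = 3
        · have hh' : nu 2 h = 0 ∨ nu 2 h = 3 := by
            rcases hh with rfl | rfl
            · right; rfl
            · left; rfl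
          rw [σ2 _ _ hh hku, σ2 _ _ hh' hku]
        · have hh' : ¬ (nu 2 h = 0 ∨ nu 2 h = 3) :=
            (by decide : ∀ h : Fin 4, ¬ (h = 0 ∨ h = 3) → ¬ (nu 2 h = 0 ∨ nu 2 h = 3)) h hh
          rw [σ3 _ _ hh, σ3 _ _ hh']
      · have h2 : bet k τ U j (u, h) = (u, (bet k τ U j (u, h)).2) :=
          Prod.ext (bet_fst k τ U j (u, h)) rfl
        rw [h2, σ1 _ _ hku, σ1 _ _ hku]
    have e3 : A.filter (fun p => ¬ p.1 ≠ v) = {(v, 0), (v, nu a 0)} := by
      ext ⟨u, h⟩
      rw [mem_filter, hmem, mem_insert, mem_singleton]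
      constructor
      · rintro ⟨⟨h1, h2⟩, h3⟩
        obtain rfl : u = v := not_not.1 h3
        rcases hfib h h1 with rfl | rfl
        · left; rfl
        · right; rfl
      · rintro (h1 | h1)
        · obtain ⟨rfl, rfl⟩ := Prod.mk.inj h1
          exact ⟨⟨rfl, σ1 _ _ (Ne.symm hj)⟩, not_not.2 rfl⟩
        · obtain ⟨rfl, rfl⟩ := Prod.mk.inj h1
          exact ⟨⟨hfa 0, σ1 _ _ (Ne.symm hj)⟩, not_not.2 rfl⟩
    have e4 : #(A.filter (fun p => ¬ p.1 ≠ v)) = 2 := by
      rw [e3, card_pair]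
      intro h
      exact nu_ne a 0 (congrArg Prod.snd h).symm
    have e5 := card_filter_add_card_filter_not (s := A) (fun p : V × Fin 4 => p.1 ≠ v)
    rw [card_erase_of_mem h0] at e1
    have : 0 < #A := card_pos.2 ⟨_, h0⟩
    obtain ⟨x, hx⟩ := e1
    obtain ⟨y, hy⟩ := e2
    omega
  · have h1 := hf.2.2 (m j v) hwv hc hkw 3 0
    rw [r 3 rfl, r 0 rfl] at h1
    exact h03 h1

end K4HD
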