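import Pool.Agent.K4HD.Start
import Pool.Agent.K4HD.Parity

/-!
# Splitting the fibres
-/

namespace K4HD

open Finset
open scoped Classical

variable {V : Type*}

/-- a function which is locally constant for the new choice is locally constant for the old one,
except in the fibre of `v` -/
theorem locC_update (m : Fin 3 → V → V) (k : V → Fin 3) (τ : V → Fin 3 → Fin 3) (U : Set V)
    (v : V) (s : Fin 3 → Fin 3) (i : Fin 3) (f : V × Fin 4 → ZMod 2)
    (hf : LocC m k (Function.update τ v s) (U \ {v}) ∅ i f) :
    LocC m k τ U {v} i f ∧ ∀ h, f (v, nu (s i) h) = f (v, h) := by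
  obtain ⟨h1, h2, h3⟩ := hf
  refine ⟨⟨h1, ?_, ?_⟩, ?_⟩
  · intro u hu hc h
    have huv : u ≠ v := fun e => hu (by simp [e])
    have := h2 u (by simp) (by
      rcases hc with hc | hc
      · exact Or.inl fun h' => hc h'.1
      · exact Or.inr hc) h
    rwa [Function.update_of_ne huv] at this
  · intro u hu hU hku h h'
    have huv : u ≠ v := fun e => hu (by simp [e])
    exact h3 u (by simp) ⟨hU, by simpa using huv⟩ hku h h'
  · intro h
    have := h2 v (by simp) (Or.inl fun h' => h'.2 rfl) h
    rwa [Function.update_self] at this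

/-- the exceptional fibre is not exceptional if the function is constant on it -/
theorem locC_of_const (m : Fin 3 → V → V) (k : V → Fin 3) (τ : V → Fin 3 → Fin 3) (U : Set V)
    (v : V) (hv : v ∈ U) (i : Fin 3) (f : V × Fin 4 → ZMod 2)
    (hf : LocC m k τ U {v} i f) (hc : ∀ h h', f (v, h) = f (v, h')) :
    LocC m k τ U ∅ i f := by
  obtain ⟨h1, h2, h3⟩ := hf
  refine ⟨h1, ?_, ?_⟩
  · intro u _ hcu h
    by_cases huv : u = v
    · subst huv; exact hc _ _
    · exact h2 u (by simpa using huv) hcu h
  · intro u _ hU hku h h'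
    by_cases huv : u = v
    · subst huv; exact hc _ _
    · exact h3 u (by simpa using huv) hU hku h h'

/-- splitting the fibre of `v` -/
theorem step [Finite V] (m : Fin 3 → V → V) (hm : Mates m) (k : V → Fin 3) (hk : Valid m k)
    (τ : V → Fin 3 → Fin 3) (hτ : ∀ v, τ v (k v) = 2) (hb : ∀ v, Function.Bijective (τ v))
    (U : Set V) (v : V) (hv : v ∈ U) (j : Fin 3)
    (hj : j ≠ k v) (hcase : k (m j v) = j ∨ Bridge m k j v ∨ m j v ∈ U)
    (hconn : ∀ i, ClassConn m k τ U i) :
    ∃ τ' : V → Fin 3 → Fin 3, (∀ v, τ' v (k v) = 2) ∧ (∀ v, Function.Bijective (τ' v)) ∧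
      ∀ i, ClassConn m k τ' (U \ {v}) i := by
  obtain ⟨l, hl, hlj, hall⟩ : ∃ l, l ≠ k v ∧ l ≠ j ∧ ∀ i, i = k v ∨ i = j ∨ i = l := by
    have : ∀ a b : Fin 3, b ≠ a → ∃ l, l ≠ a ∧ l ≠ b ∧ ∀ i, i = a ∨ i = b ∨ i = l := by decide
    exact this _ _ hj
  -- the good matching for the third class
  obtain ⟨a, b, ha, hb', hab, hcov, hgood⟩ : ∃ a b : Fin 3, a ≠ 2 ∧ b ≠ 2 ∧ a ≠ b ∧
      (∀ i, i = a ∨ i = b ∨ i = 2) ∧
      ∀ f, LocC m k τ U {v} l f → (∀ h, f (v, nu a h) = f (v, h)) →
        ∀ h h', f (v, h) = f (v, h') := by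
    by_cases h0 : ∀ f, LocC m k τ U {v} l f → (∀ h, f (v, nu 0 h) = f (v, h)) →
        ∀ h h', f (v, h) = f (v, h')
    · exact ⟨0, 1, by decide, by decide, by decide, by decide, h0⟩
    · refine ⟨1, 0, by decide, by decide, by decide, by decide, ?_⟩
      push Not at h0
      obtain ⟨f, hf, hfa, h1, h2, hne⟩ := h0
      intro g hg hga
      by_contra hcon
      exact two_bad m hm k τ hτ U v l 0 1 (by decide) f g hf hg hfa hga
        (fun hh => hne (hh _ _)) hcon
  -- the new permutation at `v`
  set s : Fin 3 → Fin 3 := fun i => if i = k v then 2 else if i = j then b else a with hs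
  have hsk : s (k v) = 2 := by simp [hs]
  have hsj : s j = b := by simp [hs, hj]
  have hsl : s l = a := by simp [hs, hl, hlj]
  have hsb : Function.Bijective s := by
    apply (Finite.injective_iff_bijective).1
    intro x y hxy
    rcases hall x with rfl | rfl | rfl <;> rcases hall y with rfl | rfl | rfl <;>
      simp_all
  refine ⟨Function.update τ v s, ?_, ?_, ?_⟩
  · intro u
    by_cases huv : u = v
    · subst huv; rw [Function.update_self]; exact hsk
    · rw [Function.update_of_ne huv]; exact hτ u
  · intro u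
    by_cases huv : u = v
    · subst huv; rw [Function.update_self]; exact hsb
    · rw [Function.update_of_ne huv]; exact hb u
  · intro i f hf
    obtain ⟨hf1, hf2⟩ := locC_update m k τ U v s i f hf
    rcases hall i with hi | hi | hi
    · -- the class `k v`
      apply hconn i f
      refine ⟨hf1.1, ?_, ?_⟩
      · intro u _ hcu h
        by_cases huv : u = v
        · subst huv
          have := hf2 h
          rw [hi, hsk] at this
          rw [hi, hτ]
          exact this
        · exact hf1.2.1 u (by simpa using huv) hcu h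
      · intro u _ hU hku h h'
        by_cases huv : u = v
        · subst huv; exact absurd hi.symm hku
        · exact hf1.2.2 u (by simpa using huv) hU hku h h'
    · -- the class `j`
      subst hi
      rw [hsj] at hf2
      exact hconn i f (locC_of_const m k τ U v hv i f hf1
        (both_good m hm k hk τ hτ U v i hj hcase b hb' f hf1 hf2))
    · -- the third class
      subst hi
      rw [hsl] at hf2
      exact hconn i f (locC_of_const m k τ U v hv i f hf1 (hgood f hf1 hf2))

/-- all fibres can be split -/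
theorem resolve [Finite V] (m : Fin 3 → V → V) (hm : Mates m) (k : V → Fin 3) (hk : Valid m k)
    (t : V → ℕ)
    (ht : ∀ v, ∃ j, j ≠ k v ∧ (k (m j v) = j ∨ Bridge m k j v ∨ t v < t (m j v))) :
    ∃ τ : V → Fin 3 → Fin 3, (∀ v, Function.Bijective (τ v)) ∧
      ∀ (i : Fin 3) (f : V × Fin 4 → ZMod 2), (∀ p, f (al m i p) = f p) →
        (∀ v h, f (v, nu (τ v i) h) = f (v, h)) → ∀ p q, f p = f q := by
  have key : ∀ (n : ℕ) (U : Set V), U.ncard = n → (∀ u, u ∉ U → ∀ u' ∈ U, t u ≤ t u') →
      (∃ τ : V → Fin 3 → Fin 3, (∀ v, τ v (k v) = 2) ∧ (∀ v, Function.Bijective (τ v)) ∧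
        ∀ i, ClassConn m k τ U i) →
      ∃ τ : V → Fin 3 → Fin 3, (∀ v, τ v (k v) = 2) ∧ (∀ v, Function.Bijective (τ v)) ∧
        ∀ i, ClassConn m k τ ∅ i := by
    intro n
    induction n with
    | zero =>
      intro U hU _ hex
      have : U = ∅ := (Set.ncard_eq_zero (Set.toFinite U)).1 hU
      rwa [this] at hex
    | succ n ih =>
      intro U hU hinv ⟨τ, hτ, hb, hconn⟩
      have hne : U.Nonempty := by
        rw [Set.nonempty_iff_ne_empty]
        rintro rfl
        simp at hU
      obtain ⟨v, hv, hmin⟩ := Set.exists_min_image U t (Set.toFinite U) hne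
      obtain ⟨j, hj, hc⟩ := ht v
      have hcase : k (m j v) = j ∨ Bridge m k j v ∨ m j v ∈ U := by
        rcases hc with hc | hc | hc
        · exact Or.inl hc
        · exact Or.inr (Or.inl hc)
        · refine Or.inr (Or.inr ?_)
          by_contra hnot
          exact absurd (hinv _ hnot v hv) (by omega)
      refine ih (U \ {v}) ?_ ?_ (step m hm k hk τ hτ hb U v hv j hj hcase hconn)
      · rw [Set.ncard_sdiff_singleton_of_mem hv, hU]; rfl
      · intro u hu u' hu'
        by_cases hu1 : u ∈ U
        · have : u = v := by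
            by_contra hne'
            exact hu ⟨hu1, by simpa using hne'⟩
          rw [this]; exact hmin u' hu'.1
        · exact hinv u hu1 u' hu'.1
  obtain ⟨τ, _, hb, hconn⟩ := key (Set.univ : Set V).ncard Set.univ rfl (by simp)
    ⟨fun v => Equiv.swap (k v) 2, fun v => by simp, fun v => (Equiv.swap (k v) 2).bijective,
      fun i => start m hm k hk _ (fun v => by simp) i⟩
  refine ⟨τ, hb, ?_⟩
  intro i f h1 h2
  exact hconn i f ⟨h1, fun v _ _ h => h2 v h, fun v _ hv => absurd hv (by simp)⟩

end K4HD
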