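import Pool.Agent.K4HD.Exist
import Pool.Agent.K4HD.Order
import Pool.Agent.K4HD.Step
import Pool.Agent.K4HD.Final

/-!
# Main theorem
-/

namespace K4HD

theorem main {V : Type*} [Fintype V] [DecidableEq V] (G : SimpleGraph V) [DecidableRel G.Adj]
    (hG : G.Connected) (hreg : G.IsRegularOfDegree 3) (hcol : G.lineGraph.Colorable 3) :
    H93HD.HamDecomp (G □ (⊤ : SimpleGraph (Fin 4))) 3 := by
  have hne : Nonempty V := hG.nonempty
  obtain ⟨m, hm, hadj, hinj⟩ := exists_mates G hreg hcol
  have hGC : GConn m := by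
    intro f hf u v
    obtain ⟨p⟩ := hG.preconnected u v
    induction p with
    | nil => rfl
    | cons h p ih =>
      obtain ⟨i, hi⟩ := (hadj _ _).1 h
      rw [← ih, ← hi, hf]
  obtain ⟨k, hk, hC⟩ := exists_noBad m hm (exists_valid m hm hGC)
  obtain ⟨t, ht⟩ := exists_order m k hC
  obtain ⟨τ, hτ, hc⟩ := resolve m hm k hk t ht
  exact hamDecomp_of_split G m hm hadj hinj τ hτ hc

end K4HD
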