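import Mathlib

/-!
# Rado's theorem (transversals and submodular functions), choice function form
-/

namespace K4HD

open Finset

theorem rado {V K : Type*} [Fintype V] [DecidableEq V] [Fintype K] [DecidableEq K] [Nonempty K]
    (r : Finset (V × K) → ℤ)
    (hmono : ∀ S T, S ⊆ T → r S ≤ r T)
    (hsub : ∀ S T, r (S ∪ T) + r (S ∩ T) ≤ r S + r T)
    (hW : ∀ W : Finset V, (#W : ℤ) ≤ r (W ×ˢ (univ : Finset K))) :
    ∃ k : V → K, ∀ W : Finset V, (#W : ℤ) ≤ r (W.image (fun v => (v, k v))) := by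
  classical
  -- a minimal set satisfying the condition
  obtain ⟨S, hS, hmin⟩ := (Set.toFinite {S : Finset (V × K) | ∀ W : Finset V,
      (#W : ℤ) ≤ r (S.filter (fun p => p.1 ∈ W))}).exists_minimal ⟨univ, fun W => by
        refine (hW W).trans (hmono _ _ ?_)
        intro p hp
        rw [mem_product] at hp
        rw [mem_filter]
        exact ⟨mem_univ _, hp.1⟩⟩
  have hfail : ∀ v x, (v, x) ∈ S → ∃ W : Finset V, v ∈ W ∧
      r ((S.erase (v, x)).filter (fun p => p.1 ∈ W)) ≤ #W - 1 := by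
    intro v x hvx
    by_contra hcon
    push Not at hcon
    have h1 : S.erase (v, x) ∈ {S : Finset (V × K) | ∀ W : Finset V,
        (#W : ℤ) ≤ r (S.filter (fun p => p.1 ∈ W))} := by
      intro W
      by_cases hv : v ∈ W
      · have := hcon W hv
        omega
      · have h2 : (S.erase (v, x)).filter (fun p => p.1 ∈ W) = S.filter (fun p => p.1 ∈ W) := by
          ext p
          simp only [mem_filter, mem_erase]
          constructor
          · rintro ⟨⟨_, h3⟩, h4⟩
            exact ⟨h3, h4⟩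
          · rintro ⟨h3, h4⟩
            refine ⟨⟨?_, h3⟩, h4⟩
            rintro rfl
            exact hv h4
        rw [h2]
        exact hS W
    have h2 := hmin h1 (erase_subset _ _)
    exact (mem_erase.1 (h2 hvx)).1 rfl
  have hsing : ∀ v x y, (v, x) ∈ S → (v, y) ∈ S → x = y := by
    intro v x y hx hy
    by_contra hxy
    obtain ⟨W₁, hv₁, h₁⟩ := hfail v x hx
    obtain ⟨W₂, hv₂, h₂⟩ := hfail v y hy
    have h3 := hsub ((S.erase (v, x)).filter (fun p => p.1 ∈ W₁))
      ((S.erase (v, y)).filter (fun p => p.1 ∈ W₂))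
    have h4 : S.filter (fun p => p.1 ∈ W₁ ∪ W₂) ⊆ (S.erase (v, x)).filter (fun p => p.1 ∈ W₁) ∪
        (S.erase (v, y)).filter (fun p => p.1 ∈ W₂) := by
      rintro ⟨u, z⟩ hp
      simp only [mem_filter, mem_union, mem_erase, ne_eq, Prod.mk.injEq, not_and] at hp ⊢
      by_cases huv : u = v
      · subst huv
        by_cases hzx : z = x
        · right
          exact ⟨⟨fun _ => by rw [hzx]; exact hxy, hp.1⟩, hv₂⟩
        · left
          exact ⟨⟨fun _ => hzx, hp.1⟩, hv₁⟩
      · rcases hp.2 with h | h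
        · left
          exact ⟨⟨fun h' => absurd h' huv, hp.1⟩, h⟩
        · right
          exact ⟨⟨fun h' => absurd h' huv, hp.1⟩, h⟩
    have h5 : S.filter (fun p => p.1 ∈ (W₁ ∩ W₂).erase v) ⊆
        (S.erase (v, x)).filter (fun p => p.1 ∈ W₁) ∩
        (S.erase (v, y)).filter (fun p => p.1 ∈ W₂) := by
      rintro ⟨u, z⟩ hp
      simp only [mem_filter, mem_inter, mem_erase, ne_eq, Prod.mk.injEq, not_and] at hp ⊢
      exact ⟨⟨⟨fun h => absurd h hp.2.1, hp.1⟩, hp.2.2.1⟩,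
        ⟨⟨fun h => absurd h hp.2.1, hp.1⟩, hp.2.2.2⟩⟩
    have h6 := (hS (W₁ ∪ W₂)).trans (hmono _ _ h4)
    have h7 := (hS ((W₁ ∩ W₂).erase v)).trans (hmono _ _ h5)
    have h8 : #((W₁ ∩ W₂).erase v) = #(W₁ ∩ W₂) - 1 :=
      card_erase_of_mem (mem_inter.2 ⟨hv₁, hv₂⟩)
    have h9 : 0 < #(W₁ ∩ W₂) := card_pos.2 ⟨v, mem_inter.2 ⟨hv₁, hv₂⟩⟩
    have h10 := card_union_add_card_inter W₁ W₂
    omega
  choose k hk using fun v : V => show ∃ x : K, ∀ y, (v, y) ∈ S → y = x by
    by_cases h : ∃ x, (v, x) ∈ S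
    · obtain ⟨x, hx⟩ := h
      exact ⟨x, fun y hy => hsing v y x hy hx⟩
    · push Not at h
      exact ⟨Classical.arbitrary K, fun y hy => absurd hy (h y)⟩
  refine ⟨k, fun W => (hS W).trans (hmono _ _ ?_)⟩
  rintro ⟨u, z⟩ hp
  rw [mem_filter] at hp
  rw [mem_image]
  exact ⟨u, hp.2, by rw [hk u z hp.1]⟩

end K4HD
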