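import Pool.Agent.K4HD.Defs

/-!
# The space `𝓕(S)` and the rank function

`φ : V → ℕ` is injective and only used to choose one of the two ends of every edge: the edge of
colour `j` at `v` is represented by the pair `(v, j)` with `φ v < φ (m j v)`.
-/

namespace K4HD

open Finset
open scoped Classical

variable {V : Type*}

/-- triples `(f₀, f₁, f₂)`: `f_i` is constant along all edges of colour `≠ i`, and along the edges of
colour `i` whose representative is not in `S` -/
def FS (m : Fin 3 → V → V) (φ : V → ℕ) (S : Finset (V × Fin 3)) :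
    Submodule (ZMod 2) (Fin 3 → V → ZMod 2) where
  carrier := {f | (∀ i j, j ≠ i → ∀ v, f i (m j v) = f i v) ∧
    ∀ i v, φ v < φ (m i v) → (v, i) ∉ S → f i (m i v) = f i v}
  add_mem' := by
    rintro f g ⟨h1, h2⟩ ⟨h3, h4⟩
    exact ⟨fun i j hj v => by simp [h1 i j hj v, h3 i j hj v],
      fun i v hv hS => by simp [h2 i v hv hS, h4 i v hv hS]⟩
  zero_mem' := ⟨fun _ _ _ _ => rfl, fun _ _ _ _ => rfl⟩
  smul_mem' := by
    rintro c f ⟨h1, h2⟩
    exact ⟨fun i j hj v => by simp [h1 i j hj v], fun i v hv hS => by simp [h2 i v hv hS]⟩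

/-- the representatives of the edges -/
noncomputable def Reps [Fintype V] (m : Fin 3 → V → V) (φ : V → ℕ) : Finset (V × Fin 3) :=
  univ.filter (fun p => φ p.1 < φ (m p.2 p.1))

/-- the rank function -/
noncomputable def rk [Fintype V] (m : Fin 3 → V → V) (φ : V → ℕ) (S : Finset (V × Fin 3)) : ℤ :=
  (#(S ∩ Reps m φ) : ℤ) + 3 - Module.finrank (ZMod 2) (FS m φ S)

theorem rk_mono [Fintype V] (m : Fin 3 → V → V) (φ : V → ℕ) (S T : Finset (V × Fin 3))
    (h : S ⊆ T) : rk m φ S ≤ rk m φ T := by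
  let X : Finset (V × Fin 3) := (T \ S) ∩ Reps m φ
  let L : FS m φ T →ₗ[ZMod 2] ({p // p ∈ X} → ZMod 2) :=
    { toFun := fun f p => f.1 p.1.2 (m p.1.2 p.1.1) - f.1 p.1.2 p.1.1
      map_add' := by
        intro f g
        funext p
        simp
        ring
      map_smul' := by
        intro c f
        funext p
        simp
        ring }
  have h1 := LinearMap.finrank_range_add_finrank_ker L
  have h2 : Module.finrank (ZMod 2) (LinearMap.range L) ≤ #X := by
    refine (Submodule.finrank_le _).trans ?_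
    rw [Module.finrank_fintype_fun_eq_card, Fintype.card_coe]
  have hker : ∀ x : LinearMap.ker L, x.1.1 ∈ FS m φ S := by
    rintro ⟨⟨f, hf⟩, hk⟩
    refine ⟨hf.1, fun i v hv hS => ?_⟩
    by_cases hT : (v, i) ∈ T
    · have hX : (v, i) ∈ X := by
        simp only [X, mem_inter, mem_sdiff, Reps, mem_filter, mem_univ, true_and]
        exact ⟨⟨hT, hS⟩, hv⟩
      exact sub_eq_zero.1 (congrFun (LinearMap.mem_ker.1 hk) ⟨(v, i), hX⟩)
    · exact hf.2 i v hv hT
  have h3 : Module.finrank (ZMod 2) (LinearMap.ker L) ≤ Module.finrank (ZMod 2) (FS m φ S) := by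
    let M : LinearMap.ker L →ₗ[ZMod 2] FS m φ S :=
      { toFun := fun x => ⟨x.1.1, hker x⟩
        map_add' := fun x y => rfl
        map_smul' := fun c x => rfl }
    have hM : Function.Injective M := by
      intro x y hxy
      have h' : x.1.1 = y.1.1 := congrArg (fun z : FS m φ S => z.1) hxy
      exact Subtype.ext (Subtype.ext h')
    exact LinearMap.finrank_le_finrank_of_injective hM
  have h4 : #X + #(S ∩ Reps m φ) = #(T ∩ Reps m φ) := by
    rw [← Finset.card_union_of_disjoint]
    · congr 1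
      ext p
      simp only [X, mem_union, mem_inter, mem_sdiff]
      constructor
      · rintro (⟨⟨a, b⟩, c⟩ | ⟨a, b⟩)
        · exact ⟨a, c⟩
        · exact ⟨h a, b⟩
      · rintro ⟨a, b⟩
        by_cases hS : p ∈ S
        · exact Or.inr ⟨hS, b⟩
        · exact Or.inl ⟨⟨a, hS⟩, b⟩
    · rw [Finset.disjoint_left]
      intro p hp hp'
      simp only [X, mem_inter, mem_sdiff] at hp hp'
      exact hp.1.2 hp'.1
  rw [rk, rk]
  omega

theorem rk_submod [Fintype V] (m : Fin 3 → V → V) (φ : V → ℕ) (S T : Finset (V × Fin 3)) :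
    rk m φ (S ∪ T) + rk m φ (S ∩ T) ≤ rk m φ S + rk m φ T := by
  have h1 : FS m φ S ⊓ FS m φ T = FS m φ (S ∩ T) := by
    ext f
    constructor
    · rintro ⟨ha, hb⟩
      refine ⟨ha.1, fun i v hv hS => ?_⟩
      by_cases h : (v, i) ∈ S
      · exact hb.2 i v hv fun h' => hS (mem_inter.2 ⟨h, h'⟩)
      · exact ha.2 i v hv h
    · intro ha
      exact ⟨⟨ha.1, fun i v hv hS => ha.2 i v hv fun h' => hS (mem_inter.1 h').1⟩,
        ⟨ha.1, fun i v hv hS => ha.2 i v hv fun h' => hS (mem_inter.1 h').2⟩⟩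
  have h2 : FS m φ S ⊔ FS m φ T ≤ FS m φ (S ∪ T) := by
    refine sup_le ?_ ?_
    · intro f ha
      exact ⟨ha.1, fun i v hv hS => ha.2 i v hv fun h' => hS (mem_union_left _ h')⟩
    · intro f ha
      exact ⟨ha.1, fun i v hv hS => ha.2 i v hv fun h' => hS (mem_union_right _ h')⟩
  have h3 := Submodule.finrank_sup_add_finrank_inf_eq (FS m φ S) (FS m φ T)
  have h4 := Submodule.finrank_mono h2
  rw [h1] at h3
  have h5 := Finset.card_union_add_card_inter (S ∩ Reps m φ) (T ∩ Reps m φ)
  rw [← Finset.union_inter_distrib_right, ← Finset.inter_inter_distrib_right] at h5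
  rw [rk, rk, rk, rk]
  omega

end K4HD
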