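import Pool.Agent.K4HD.Defs

/-!
# All fibres unsplit: connected
-/

namespace K4HD

open Finset
open scoped Classical

variable {V : Type*}

/-- all unsplit: connected -/
theorem start (m : Fin 3 → V → V) (hm : Mates m) (k : V → Fin 3) (hk : Valid m k)
    (τ : V → Fin 3 → Fin 3) (hτ : ∀ v, τ v (k v) = 2) (i : Fin 3) :
    ClassConn m k τ Set.univ i := by
  intro f hf
  obtain ⟨ha, hb, hc⟩ := hf
  have hc' : ∀ v, k v ≠ i → ∀ h h', f (v, h) = f (v, h') := fun v hv =>
    hc v (Set.notMem_empty v) (Set.mem_univ v) hv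
  have hb' : ∀ v, k v = i → ∀ h, f (v, nu 2 h) = f (v, h) := by
    intro v hv h
    have h1 := hb v (Set.notMem_empty v) (Or.inr hv) h
    have h2 : τ v i = 2 := by rw [← hv]; exact hτ v
    rwa [h2] at h1
  have h12 : ∀ v, f (v, 2) = f (v, 1) := by
    intro v
    by_cases hv : k v = i
    · exact hb' v hv 1
    · exact hc' v hv 2 1
  have r0 : ∀ v, f (m i v, 0) = f (v, 0) := by
    intro v
    have h1 := ha (v, 0)
    have h2 : i + sg 0 = i := by simp [sg]
    simpa [al, h2] using h1
  have r1 : ∀ v, f (m (i + 1) v, 1) = f (v, 1) := fun v => ha (v, 1)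
  have r2 : ∀ v, f (m (i + 2) v, 2) = f (v, 2) := fun v => ha (v, 2)
  have hF : ∀ u v, f (u, 1) = f (v, 1) := by
    refine hk.2 i (fun u => f (u, 1)) ⟨?_, ?_⟩
    · intro j hj v
      have h3 : j = i + 1 ∨ j = i + 2 :=
        (by decide : ∀ i j : Fin 3, j ≠ i → j = i + 1 ∨ j = i + 2) i j hj
      rcases h3 with rfl | rfl
      · exact r1 v
      · show f (m (i + 2) v, 1) = f (v, 1)
        rw [← h12, r2, h12]
    · intro v hv hv'
      show f (m i v, 1) = f (v, 1)
      rw [hc' _ hv' 1 0, r0, hc' v hv 0 1]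
  have hall : ∀ v h, f (v, h) = f (v, 1) := by
    intro v h
    by_cases hv : k v = i
    · have hmv : k (m i v) ≠ i := by
        have := hk.1 v
        rwa [hv] at this
      have h0 : f (v, 0) = f (v, 1) := by
        rw [← r0 v, hc' _ hmv 0 1]
        exact hF _ _
      have h3 : f (v, 3) = f (v, 1) := by
        have : f (v, 3) = f (v, 0) := hb' v hv 0
        rw [this, h0]
      fin_cases h
      · exact h0
      · rfl
      · exact h12 v
      · exact h3
    · exact hc' v hv h 1
  intro p q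
  rw [show p = (p.1, p.2) from rfl, show q = (q.1, q.2) from rfl, hall p.1 p.2, hall q.1 q.2]
  exact hF _ _

end K4HD
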